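import Pool.Agent.H.MP_0447ec_lc.OH.Eval

/-!
# The longest segment of good hypotheses

`sp_hyps A` is the list of the hypotheses of `A` along the right spine and `sp_tls A` the list of
the formulas on the spine, so `A = imps ((sp_hyps A).take k) ((sp_tls A)[k])` for
`k ≤ (sp_hyps A).length`, and `A = imps Hs B` implies `Hs = (sp_hyps A).take Hs.length`. Both lists
are polynomial-time functions of `A` (`Poly.ofFold` with values `(A, sp_hyps A, sp_tls A)`).
`sp_blk f` is a Boolean test for `Grp f` on lists. All segments of `sp_hyps A` are tried, and a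
longest one that passes the test is taken.
-/

namespace Pool.Agent.H.MP_0447ec_lc.PS

open Fm Pool.Agent.H.MP_0447ec_lc.PT

/-- The hypotheses along the right spine. -/
def sp_hyps : Fm → List Fm
  | .imp X Y => X :: sp_hyps Y
  | _ => []

/-- The formulas on the right spine. -/
def sp_tls : Fm → List Fm
  | .imp X Y => Fm.imp X Y :: sp_tls Y
  | A => [A]

/-- The fold that computes both lists. -/
def sp_F : Fm → Fm × List Fm × List Fm :=
  fmFold (fun w => (Fm.var w, [], [Fm.var w])) (fun p => (Fm.neg p.1, [], [Fm.neg p.1]))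
    (fun n p q => (conn n p.1 q.1, if n = 4 then p.1 :: q.2.1 else [],
      if n = 4 then conn n p.1 q.1 :: q.2.2 else [conn n p.1 q.1]))

theorem sp_F_eq (A : Fm) : sp_F A = (A, sp_hyps A, sp_tls A) := by
  induction A with
  | var w => rfl
  | neg A ih =>
    show (Fm.neg (sp_F A).1, _, [Fm.neg (sp_F A).1]) = _
    rw [ih]; rfl
  | and A B ih1 ih2 =>
    show (conn 2 (sp_F A).1 (sp_F B).1, if 2 = 4 then _ else _, if 2 = 4 then _ else
      [conn 2 (sp_F A).1 (sp_F B).1]) = _
    rw [ih1, ih2]; rfl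
  | or A B ih1 ih2 =>
    show (conn 3 (sp_F A).1 (sp_F B).1, if 3 = 4 then _ else _, if 3 = 4 then _ else
      [conn 3 (sp_F A).1 (sp_F B).1]) = _
    rw [ih1, ih2]; rfl
  | imp A B ih1 ih2 =>
    show (conn 4 (sp_F A).1 (sp_F B).1, if 4 = 4 then (sp_F A).1 :: (sp_F B).2.1 else _,
      if 4 = 4 then conn 4 (sp_F A).1 (sp_F B).1 :: (sp_F B).2.2 else _) = _
    rw [ih1, ih2]; rfl

theorem sp_hyps_sublist (A : Fm) : (sp_hyps A).Sublist (subs A) := by
  induction A with
  | var w => simp [sp_hyps]
  | neg A ih => simp [sp_hyps]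
  | and A B ih1 ih2 => simp [sp_hyps]
  | or A B ih1 ih2 => simp [sp_hyps]
  | imp A B ih1 ih2 =>
    have h1 : [A].Sublist (subs A) := List.singleton_sublist.2 (self_mem_subs A)
    exact List.Sublist.cons _ (List.Sublist.append h1 ih2)

theorem sp_tls_sublist (A : Fm) : (sp_tls A).Sublist (subs A) := by
  induction A with
  | var w => exact List.Sublist.refl _
  | neg A ih => simp [sp_tls, subs]
  | and A B ih1 ih2 => simp [sp_tls, subs]
  | or A B ih1 ih2 => simp [sp_tls, subs]
  | imp A B ih1 ih2 =>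
    exact List.Sublist.cons_cons _ (ih2.trans (List.sublist_append_right _ _))

theorem sp_tls_length (A : Fm) : (sp_tls A).length = (sp_hyps A).length + 1 := by
  induction A with
  | var w => rfl
  | neg A ih => rfl
  | and A B ih1 ih2 => rfl
  | or A B ih1 ih2 => rfl
  | imp A B ih1 ih2 => simp only [sp_tls, sp_hyps, List.length_cons, ih2]

theorem sp_imps_take (d : Fm) : ∀ (A : Fm) (k : ℕ), k ≤ (sp_hyps A).length →
    A = imps ((sp_hyps A).take k) ((sp_tls A).getD k d) := by
  intro A
  induction A with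
  | var w => intro k hk; simp only [sp_hyps, List.length_nil, Nat.le_zero] at hk; subst hk; rfl
  | neg A ih => intro k hk; simp only [sp_hyps, List.length_nil, Nat.le_zero] at hk; subst hk; rfl
  | and A B ih1 ih2 =>
    intro k hk; simp only [sp_hyps, List.length_nil, Nat.le_zero] at hk; subst hk; rfl
  | or A B ih1 ih2 =>
    intro k hk; simp only [sp_hyps, List.length_nil, Nat.le_zero] at hk; subst hk; rfl
  | imp A B ih1 ih2 =>
    intro k hk
    cases k with
    | zero => rfl
    | succ k =>
      simp only [sp_hyps, List.length_cons, Nat.succ_le_succ_iff] at hk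
      simp only [sp_hyps, sp_tls, List.take_succ_cons, List.getD_cons_succ, imps_cons]
      rw [← ih2 k hk]

theorem sp_hyps_imps (Hs : List Fm) (B : Fm) : sp_hyps (imps Hs B) = Hs ++ sp_hyps B := by
  induction Hs with
  | nil => rfl
  | cons H Hs ih => rw [imps_cons, sp_hyps, ih]; rfl

/-- The test for `Grp f`. -/
def sp_blk (f : Bool) (l : List Fm) : Bool :=
  (sp [] l).all (fun p => p.2.2.all (fun H' => (nms p.2.1).all (fun x =>
    !decide (x ∈ nms H')))) && l.all (fun H => !(evc f H))

theorem sp_all_iff (T : Fm → Fm → Bool) : ∀ (l pre : List Fm),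
    ((sp pre l).all (fun p => p.2.2.all (fun H' => T p.2.1 H'))) = true ↔
      l.Pairwise (fun H H' => T H H' = true) := by
  intro l
  induction l with
  | nil => intro pre; simp [sp]
  | cons b l ih =>
    intro pre
    rw [sp, List.all_cons, Bool.and_eq_true, ih, List.pairwise_cons, List.all_eq_true]

theorem sp_blk_iff (f : Bool) (l : List Fm) : sp_blk f l = true ↔ Grp f l := by
  unfold sp_blk Grp
  rw [Bool.and_eq_true, sp_all_iff (fun H H' => (nms H).all (fun x => !decide (x ∈ nms H')))]
  refine and_congr ?_ ?_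
  · have h : (fun H H' : Fm => ((nms H).all (fun x => !decide (x ∈ nms H'))) = true) =
        fun H H' : Fm => ∀ x ∈ H.vars, x ∉ H'.vars := by
      funext H H'
      simp [List.all_eq_true, mem_nms]
    rw [h]
  · rw [List.all_eq_true]
    refine forall₂_congr fun H _ => ?_
    rw [← evc_iff]
    simp

theorem sp_grp_nil (f : Bool) : Grp f [] := ⟨List.Pairwise.nil, by simp⟩

/-- The test for the segment with the length `k` from the place `m` on. -/
def sp_ok (f : Bool) (l : List Fm) (k m : ℕ) : Bool :=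
  decide (m + k ≤ l.length) && sp_blk f ((l.drop m).take k)

/-- The length of the longest segment that passes the test. -/
def sp_K (f : Bool) (l : List Fm) : ℕ :=
  (((List.range (l.length + 1)).reverse.filter
    (fun k => (List.range (l.length + 1)).any (fun m => sp_ok f l k m))).headD 0)

/-- Its place. -/
def sp_M (f : Bool) (l : List Fm) : ℕ :=
  ((List.range (l.length + 1)).filter (fun m => sp_ok f l (sp_K f l) m)).headD 0

theorem sp_headD_max : ∀ (l : List ℕ), l.Pairwise (· > ·) → ∀ k ∈ l, k ≤ l.headD 0 := by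
  intro l hl k hk
  cases l with
  | nil => simp at hk
  | cons a l =>
    rw [List.headD_cons]
    rcases List.mem_cons.1 hk with rfl | hk
    · exact le_rfl
    · exact (List.rel_of_pairwise_cons hl hk).le

theorem sp_headD_mem : ∀ (l : List ℕ) (k : ℕ), k ∈ l → l.headD 0 ∈ l := by
  intro l k hk
  cases l with
  | nil => simp at hk
  | cons a l => simp

theorem sp_ok_iff {f : Bool} {l : List Fm} {k m : ℕ} : sp_ok f l k m = true ↔
    m + k ≤ l.length ∧ Grp f ((l.drop m).take k) := by
  unfold sp_ok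
  rw [Bool.and_eq_true, decide_eq_true_iff, sp_blk_iff]

theorem sp_spec (f : Bool) (l : List Fm) : sp_ok f l (sp_K f l) (sp_M f l) = true ∧
    ∀ k m, sp_ok f l k m = true → k ≤ sp_K f l := by
  have hmem : ∀ k, k ∈ (List.range (l.length + 1)).reverse.filter
      (fun k => (List.range (l.length + 1)).any (fun m => sp_ok f l k m)) ↔
      ∃ m, sp_ok f l k m = true := by
    intro k
    rw [List.mem_filter, List.mem_reverse, List.mem_range, List.any_eq_true]
    constructor
    · rintro ⟨-, m, -, h⟩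
      exact ⟨m, h⟩
    · rintro ⟨m, h⟩
      have h1 := (sp_ok_iff.1 h).1
      exact ⟨by omega, m, List.mem_range.2 (by omega), h⟩
  have h0 := (hmem 0).2 ⟨0, sp_ok_iff.2 ⟨by omega, by rw [List.take_zero]; exact sp_grp_nil f⟩⟩
  have h1 : ∃ m, sp_ok f l (sp_K f l) m = true := (hmem _).1 (sp_headD_mem _ 0 h0)
  obtain ⟨m, hm⟩ := h1
  have h2 : m ∈ (List.range (l.length + 1)).filter (fun m => sp_ok f l (sp_K f l) m) := by
    have h3 := (sp_ok_iff.1 hm).1
    exact List.mem_filter.2 ⟨List.mem_range.2 (by omega), hm⟩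
  refine ⟨(List.mem_filter.1 (sp_headD_mem _ m h2)).2, fun k m h => ?_⟩
  refine sp_headD_max _ ?_ k ((hmem k).2 ⟨m, h⟩)
  refine List.Pairwise.filter _ ?_
  rw [List.pairwise_reverse]
  exact List.pairwise_lt_range

section

variable {α : Type} [Enc α]

theorem sp_poly_F {G : α → Fm} (hG : Poly G) :
    Poly (fun a => (G a, sp_hyps (G a), sp_tls (G a))) := by
  have key := Poly.ofFold (gv := fun _ w => (Fm.var w, ([] : List Fm), [Fm.var w]))
    (gn := fun _ (p : Fm × List Fm × List Fm) => (Fm.neg p.1, ([] : List Fm), [Fm.neg p.1]))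
    (g2 := fun _ n (p q : Fm × List Fm × List Fm) =>
      (PS.conn n p.1 q.1, if n = 4 then p.1 :: q.2.1 else [],
        if n = 4 then PS.conn n p.1 q.1 :: q.2.2 else [PS.conn n p.1 q.1]))
    (B := fun a => sz (G a) + ((sz (G a) * (sz (G a) + 1) + 1) +
      (sz (G a) * (sz (G a) + 1) + 1) + 1) + 1) hG (by fun_prop)
    (by fun_prop)
    (by fun_prop)
    ((hG.sz_le.add ((((hG.sz_le.mul (hG.sz_le.add (PBdd.const 1))).add (PBdd.const 1)).add
      ((hG.sz_le.mul (hG.sz_le.add (PBdd.const 1))).add (PBdd.const 1))).add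
      (PBdd.const 1))).add (PBdd.const 1)) (by
      intro a A hA
      have e := sp_F_eq A
      unfold sp_F at e
      rw [e, sz_pair, sz_pair]
      have h0 := sz_sublist_le (sp_hyps_sublist A)
      have h0' := sz_sublist_le (sp_tls_sublist A)
      have h1 := sz_subs_le A
      have h2 := sz_le_of_mem_subs hA
      have h3 : sz A * (sz A + 1) ≤ sz (G a) * (sz (G a) + 1) := by gcongr
      omega)
  have e : (fun a => (G a, sp_hyps (G a), sp_tls (G a))) = fun a => sp_F (G a) := by
    funext a; rw [sp_F_eq]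
  rw [e]
  exact key

@[fun_prop]
theorem Poly.sp_hyps {G : α → Fm} (hG : Poly G) : Poly (fun a => sp_hyps (G a)) := by
  have h := sp_poly_F hG
  have h2 : Poly (fun a => ((G a, PS.sp_hyps (G a), PS.sp_tls (G a)).2).1) :=
    Poly.comp Poly.fst (Poly.comp Poly.snd h)
  exact h2

@[fun_prop]
theorem Poly.sp_tls {G : α → Fm} (hG : Poly G) : Poly (fun a => sp_tls (G a)) := by
  have h := sp_poly_F hG
  have h2 : Poly (fun a => ((G a, PS.sp_hyps (G a), PS.sp_tls (G a)).2).2) :=
    Poly.comp Poly.snd (Poly.comp Poly.snd h)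
  exact h2

@[fun_prop]
theorem Poly.sp_ok {f : α → Bool} {l : α → List Fm} {k m : α → ℕ} (hf : Poly f) (hl : Poly l)
    (hk : Poly k) (hm : Poly m) : Poly (fun a => sp_ok (f a) (l a) (k a) (m a)) := by
  unfold PS.sp_ok PS.sp_blk
  fun_prop

@[fun_prop]
theorem Poly.sp_K {f : α → Bool} {l : α → List Fm} (hf : Poly f) (hl : Poly l) :
    Poly (fun a => sp_K (f a) (l a)) := by
  unfold PS.sp_K
  fun_prop

@[fun_prop]
theorem Poly.sp_M {f : α → Bool} {l : α → List Fm} (hf : Poly f) (hl : Poly l) :
    Poly (fun a => sp_M (f a) (l a)) := by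
  unfold PS.sp_M
  fun_prop

end

theorem spine_main : ∃ g : Bool × Fm → List Fm × List Fm × Fm, Poly g ∧ ∀ (f : Bool) (A : Fm),
    Grp f (g (f, A)).2.1 ∧ A = imps (g (f, A)).1 (imps (g (f, A)).2.1 (g (f, A)).2.2) ∧
    ∀ (pre Gs : List Fm) (B : Fm), Grp f Gs → A = imps pre (imps Gs B) →
      Gs.length ≤ (g (f, A)).2.1.length := by
  refine ⟨fun x => ((sp_hyps x.2).take (sp_M x.1 (sp_hyps x.2)),
    ((sp_hyps x.2).drop (sp_M x.1 (sp_hyps x.2))).take (sp_K x.1 (sp_hyps x.2)),
    (sp_tls x.2).getD (sp_M x.1 (sp_hyps x.2) + sp_K x.1 (sp_hyps x.2)) x.2), by fun_prop, ?_⟩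
  intro f A
  obtain ⟨h1, h2⟩ := sp_spec f (sp_hyps A)
  obtain ⟨h3, h4⟩ := sp_ok_iff.1 h1
  refine ⟨h4, ?_, ?_⟩
  · simp only
    rw [← imps_append]
    have e : (sp_hyps A).take (sp_M f (sp_hyps A)) ++
        ((sp_hyps A).drop (sp_M f (sp_hyps A))).take (sp_K f (sp_hyps A)) =
        (sp_hyps A).take (sp_M f (sp_hyps A) + sp_K f (sp_hyps A)) := List.take_add.symm
    rw [e]
    exact sp_imps_take A A _ h3
  · intro pre Gs B hB hA
    have h5 : sp_hyps A = pre ++ (Gs ++ sp_hyps B) := by rw [hA, sp_hyps_imps, sp_hyps_imps]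
    have h6 : ((sp_hyps A).drop pre.length).take Gs.length = Gs := by
      rw [h5, List.drop_left, List.take_left]
    have h7 : pre.length + Gs.length ≤ (sp_hyps A).length := by
      rw [h5, List.length_append, List.length_append]; omega
    have h8 := h2 Gs.length pre.length (sp_ok_iff.2 ⟨h7, by rw [h6]; exact hB⟩)
    simp only [List.length_take, List.length_drop]
    omega

end Pool.Agent.H.MP_0447ec_lc.PS
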