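import Pool.Agent.H.MP_0447ec_lc.OH.Low
import Pool.Agent.H.MP_0447ec_lc.OH.Spine

/-!
# Assembly

Proof. Copy `LV/SubTime.lean` from `The algorithm` to `subTime_of` (`FnT`, `B`, `P`, `Ps`, `out`,
`pP`, `pPs`, `pout`, `FnT.Spec`, `P_spec`, `out_spec`; take new names, `FnT` itself exists) and
change it: the input of the algorithm is `(π, M)`; let `A = lastF π` and, for `f = false` (slices
of `A`) and `f = true` (slices of `negVars A`), `(pre, Gs, B) = spineFn (f, A)` (the function of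
`spine_main`), `K = Gs.length` (depends on `f`). The proof of the slice `j` of `A` (`f = false`) or
`negVars A` (`f = true`) is: for `j < K` the proof from `low_main` (`A.subst (tS f (rgs A j) A)` is
`slice A j` or `slice (negVars A) j`: `slice_tS`, `slice_neg_tS`), for `j ≥ K` as in `SubTime`: the
truth table if `j * bitLen A ≤ log₂ M`, and else `gS (gN (stTab A' j, ρ), Bd)` with
`Bd = (log₂ M)² / log₂ |π| + K * log₂ M`. Number of variables: `≤ (bitLen A + 3 + 3 * log₂ M) * j`:
in the last case `(log₂ M)² / log₂ |π| ≤ 2 * log₂ M * j` as in `P_spec` and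
`K * log₂ M ≤ j * log₂ M`; for `j < K`, `1 ≤ j`, from `low_main`. The given proof has bandwidth
`b ≤ Bd` in both cases (the lists `Ps`, `Ns` of the statement are not longer than the ones that the
algorithm finds, by `spine_main`), use `NarrowProof.mono`. The cap is
`64 * (varList A).length * ((M + 1) * (M + 1) * (M + 1))` or similar.
-/

namespace Pool.Agent.H.MP_0447ec_lc.PS

open Fm Pool.Agent.H.MP_0447ec_lc.PT

/-! ### The algorithm -/

/-- The functions that are used. -/
structure AsmT where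
  /-- substitution -/
  gN : List (Nm × Fm) × List Fm → List Fm
  /-- few variables -/
  gS : List Fm × ℕ → List Fm
  /-- brute force -/
  gB : ℕ × Fm → List Fm
  /-- from slices to the permutation rule -/
  gL : (ℕ × ℕ) × Fm × List (List Fm) × List (List Fm) → List Fm
  /-- the slices with fewer registers than blocks -/
  gW : (Bool × ℕ) × List Fm × List Fm × Fm → List Fm
  /-- the blocks -/
  gP : Bool × Fm → List Fm × List Fm × Fm

namespace AsmT

variable (q : AsmT)

/-- The number of blocks. -/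
def K (z : Bool × Fm) : ℕ := (q.gP z).2.1.length

/-- The bandwidth that is allowed. -/
def B (z : Bool × List Fm × ℕ) : ℕ := FnT.B z.2 + q.K (z.1, lastF z.2.1) * Nat.log 2 z.2.2

/-- A proof of one slice; the input is `z, A', j` and a proof of `A'`. -/
def P (y : (Bool × List Fm × ℕ) × Fm × ℕ × List Fm) : List Fm :=
  if q.K (y.1.1, lastF y.1.2.1) ≤ y.2.2.1 then
    if y.2.2.1 * bitLen y.2.1 ≤ Nat.log 2 y.1.2.2 then q.gB (2 * y.1.2.2, slice y.2.1 y.2.2.1)
    else q.gS (q.gN (stTab y.2.1 y.2.2.1, y.2.2.2), q.B y.1)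
  else q.gW ((y.1.1, y.2.2.1), q.gP (y.1.1, lastF y.1.2.1))

/-- The proofs of all slices. -/
def Ps (y : (Bool × List Fm × ℕ) × Fm × List Fm) : List (List Fm) :=
  (List.range (varList y.2.1).length).map (fun j => q.P (y.1, y.2.1, j + 1, y.2.2))

/-- The result. -/
def out (x : List Fm × ℕ) : List Fm :=
  q.gL ((bitLen (lastF x.1) + 3 + 3 * Nat.log 2 x.2,
    16 * (varList (lastF x.1)).length * ((x.2 + 1) * (x.2 + 1) * (x.2 + 1))), lastF x.1,
    q.Ps ((false, x), lastF x.1, x.1),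
    q.Ps ((true, x), negVars (lastF x.1), q.gN (stNeg (lastF x.1), x.1)))

variable {q}

theorem asm_pK (hP : Poly q.gP) : Poly q.K := by
  unfold K
  fun_prop

theorem asm_pB (hP : Poly q.gP) : Poly q.B := by
  have h0 := asm_pK hP
  unfold B
  have h1 : Poly (fun z : Bool × List Fm × ℕ => Nat.log 2 z.2.2) := Poly.log2 (by fun_prop)
  have h2 : Poly (fun z : Bool × List Fm × ℕ => FnT.B z.2) := Poly.comp FnT.pB (by fun_prop)
  fun_prop

theorem asm_pP (hN : Poly q.gN) (hS : Poly q.gS) (hB : Poly q.gB) (hW : Poly q.gW)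
    (hP : Poly q.gP) : Poly q.P := by
  have h0 := asm_pK hP
  have h3 := asm_pB hP
  unfold P stTab
  have h1 : Poly (fun y : (Bool × List Fm × ℕ) × Fm × ℕ × List Fm => Nat.log 2 y.1.2.2) :=
    Poly.log2 (by fun_prop)
  fun_prop

theorem asm_pPs (hN : Poly q.gN) (hS : Poly q.gS) (hB : Poly q.gB) (hW : Poly q.gW)
    (hP : Poly q.gP) : Poly q.Ps := by
  have h := asm_pP hN hS hB hW hP
  unfold Ps
  fun_prop

theorem asm_pout (hN : Poly q.gN) (hS : Poly q.gS) (hB : Poly q.gB) (hW : Poly q.gW)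
    (hP : Poly q.gP) (hL : Poly q.gL) : Poly q.out := by
  have h := asm_pPs hN hS hB hW hP
  unfold out stNeg
  have h1 : Poly (fun x : List Fm × ℕ => Nat.log 2 x.2) := Poly.log2 (by fun_prop)
  fun_prop

end AsmT

/-! ### Correctness -/

/-- What is needed of the functions. -/
structure AsmT.Spec (F : List Rule) (q : AsmT) : Prop where
  hN : ∀ (A : Fm) (b : ℕ) (π : List Fm) (t : List (Nm × Fm)), NarrowProof F A b π →
    NarrowProof F (A.subst (tsub t)) b (q.gN (t, π))
  hS : ∀ (A : Fm) (b : ℕ) (π : List Fm), NarrowProof F A b π →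
    SubstProof F A (q.gS (π, b)) ∧ numVars (q.gS (π, b)) ≤ numVars [A] + b + 2
  hB : ∀ (M : ℕ) (A : Fm), (∀ v, A.Eval v) → 2 ^ numVars [A] ≤ M →
    FregeProof F A (q.gB (M, A)) ∧ ∀ C ∈ q.gB (M, A), ∀ x ∈ C.vars, x ∈ A.vars
  hL : ∀ (A : Fm) (k cap : ℕ) (σs σs' : List (List Fm)), 2 ^ k ≤ cap →
    σs.length = (varList A).length → σs'.length = (varList A).length →
    (∀ (j : ℕ) (hj : j < σs.length),
      SubstProof F (slice A (j + 1)) σs[j] ∧ numVars σs[j] ≤ k * (j + 1)) →
    (∀ (j : ℕ) (hj : j < σs'.length),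
      SubstProof F (slice (negVars A) (j + 1)) σs'[j] ∧ numVars σs'[j] ≤ k * (j + 1)) →
    PermProof F A (q.gL ((k, cap), A, σs, σs'))
  hW : ∀ (f : Bool) (J : ℕ) (pre Gs : List Fm) (B A : Fm), Grp f Gs → J < Gs.length →
    A = imps pre (imps Gs B) →
    SubstProof F (A.subst (tS f (rgs A J) A)) (q.gW ((f, J), pre, Gs, B)) ∧
      numVars (q.gW ((f, J), pre, Gs, B)) ≤ J * bitLen A + 2
  hP : ∀ (f : Bool) (A : Fm),
    Grp f (q.gP (f, A)).2.1 ∧ A = imps (q.gP (f, A)).1 (imps (q.gP (f, A)).2.1 (q.gP (f, A)).2.2) ∧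
    ∀ (pre Gs : List Fm) (B : Fm), Grp f Gs → A = imps pre (imps Gs B) →
      Gs.length ≤ (q.gP (f, A)).2.1.length

theorem asm_P_spec {F : List Rule} (hF : IsFrege F) {q : AsmT} (hq : AsmT.Spec F q) {f : Bool}
    {A A' : Fm} {s ℓ M B0 K : ℕ} {x : List Fm × ℕ} {ρ : List Fm} (hx : x.2 = M)
    (hB0 : FnT.B x = B0) (hl : lastF x.1 = A) (hK : q.K (f, A) = K) (hℓ : Nat.log 2 M = ℓ)
    (h1 : B0 * Nat.log 2 s ≤ ℓ * ℓ) (hs : 2 ≤ s) (hn : (varList A').length ≤ s)
    (hb : bitLen A' = bitLen A) (hsl' : ∀ j, slice A' j = A.subst (tS f (rgs A j) A))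
    (hρ : NarrowProof F A' (B0 + K * ℓ) ρ) {j : ℕ} (hj : 0 < j) :
    SubstProof F (slice A' j) (q.P ((f, x), A', j, ρ)) ∧
      numVars (q.P ((f, x), A', j, ρ)) ≤ (bitLen A' + 3 + 3 * ℓ) * j := by
  have hc : 0 < bitLen A' := by unfold bitLen; omega
  have hsl := numVars_slice A' j
  have htaut : ∀ v, (slice A' j).Eval v := by
    intro v
    have := asc_ext_taut hF (hq.hN A' _ ρ (stTab A' j) hρ).ext
    rw [stTab_slice] at this
    exact this v
  unfold AsmT.P
  simp only
  rw [hl, hK]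
  split_ifs with hKj hcond
  · rw [hx, hℓ] at hcond
    have hM : M ≠ 0 := by
      rintro rfl
      rw [Nat.log_zero_right] at hℓ
      subst hℓ
      have := Nat.mul_pos hj hc
      omega
    have h2 : 2 ^ numVars [slice A' j] ≤ 2 * M := by
      calc 2 ^ numVars [slice A' j] ≤ 2 ^ (ℓ + 1) :=
            Nat.pow_le_pow_right (by norm_num) (by omega)
        _ = 2 * 2 ^ ℓ := by rw [pow_succ]; ring
        _ ≤ 2 * M := by
            refine Nat.mul_le_mul_left _ ?_
            rw [← hℓ]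
            exact Nat.pow_log_le_self 2 hM
    rw [hx]
    obtain ⟨a1, a2⟩ := hq.hB (2 * M) (slice A' j) htaut h2
    refine ⟨a1.substProof, ?_⟩
    have a3 := numVars_mono (π := [slice A' j]) (σ := q.gB (2 * M, slice A' j))
      (fun C hC x hx => ⟨_, List.mem_singleton.2 rfl, a2 C hC x hx⟩)
    nlinarith
  · rw [hx, hℓ] at hcond
    have h2 := hq.hN A' _ ρ (stTab A' j) hρ
    rw [stTab_slice] at h2
    have hBz : q.B (f, x) = B0 + K * ℓ := by
      unfold AsmT.B
      simp only
      rw [hB0, hl, hK, hx, hℓ]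
    rw [hBz]
    obtain ⟨a1, a2⟩ := hq.hS _ _ _ h2
    refine ⟨a1, ?_⟩
    have hlog : 1 ≤ Nat.log 2 s := by
      have := Nat.log_mono_right (b := 2) hs
      have h3 : Nat.log 2 2 = 1 := by decide
      omega
    have hc2 : bitLen A' ≤ 2 * Nat.log 2 s := by
      unfold bitLen
      have := Nat.log_mono_right (b := 2) hn
      omega
    have hBd : B0 ≤ 2 * ℓ * j := by
      have h3 : B0 * Nat.log 2 s ≤ (2 * ℓ * j) * Nat.log 2 s := by
        calc B0 * Nat.log 2 s ≤ ℓ * ℓ := h1
          _ ≤ ℓ * (j * bitLen A') := Nat.mul_le_mul_left _ (by omega)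
          _ ≤ ℓ * (j * (2 * Nat.log 2 s)) :=
              Nat.mul_le_mul_left _ (Nat.mul_le_mul_left _ hc2)
          _ = (2 * ℓ * j) * Nat.log 2 s := by ring
      exact Nat.le_of_mul_le_mul_right h3 hlog
    have hKl : K * ℓ ≤ j * ℓ := Nat.mul_le_mul_right _ hKj
    nlinarith
  · obtain ⟨g1, g2, -⟩ := hq.hP f A
    have h2 := hq.hW f j (q.gP (f, A)).1 (q.gP (f, A)).2.1 (q.gP (f, A)).2.2 A g1
      (by rw [AsmT.K] at hK; omega) g2
    rw [← hsl' j] at h2
    refine ⟨h2.1, h2.2.trans ?_⟩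
    rw [hb]
    nlinarith

theorem asm_out_spec {F : List Rule} (hF : IsFrege F) {q : AsmT} (hq : AsmT.Spec F q) {A : Fm}
    {pre Ps pre' Ns : List Fm} {B B' : Fm} {b M : ℕ} {π : List Fm}
    (hA : A = imps pre (imps Ps B)) (hPs : Grp false Ps) (hA' : A = imps pre' (imps Ns B'))
    (hNs : Grp true Ns) (hπ : NarrowProof F A b π)
    (hM : b ≤ min Ps.length Ns.length * Nat.log 2 M ∨
      b * Nat.log 2 (sz π) ≤ Nat.log 2 M ^ 2) : PermProof F A (q.out (π, M)) := by
  have hl : lastF π = A := lastF_eq hπ.2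
  have hne : π ≠ [] := by
    rintro rfl
    have := hπ.2
    simp at this
  have hs : 2 ≤ sz π := two_le_sz hne
  have hlog : 0 < Nat.log 2 (sz π) := by
    have := Nat.log_mono_right (b := 2) hs
    have h3 : Nat.log 2 2 = 1 := by decide
    omega
  have hB : FnT.B (π, M) = (Nat.log 2 M * Nat.log 2 M) / Nat.log 2 (sz π) := by
    unfold FnT.B
    rw [cdiv_eq hlog, Nat.add_sub_cancel]
  have hb : ∀ f : Bool, b ≤ FnT.B (π, M) + q.K (f, A) * Nat.log 2 M := by
    intro f
    rcases hM with hM | hM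
    · have h1 : min Ps.length Ns.length ≤ q.K (f, A) := by
        cases f
        · exact (min_le_left _ _).trans ((hq.hP false A).2.2 pre Ps B hPs hA)
        · exact (min_le_right _ _).trans ((hq.hP true A).2.2 pre' Ns B' hNs hA')
      have h2 := Nat.mul_le_mul_right (Nat.log 2 M) h1
      omega
    · have h1 : b ≤ FnT.B (π, M) := by
        rw [hB, Nat.le_div_iff_mul_le hlog, ← sq]
        exact hM
      omega
  have hBd : FnT.B (π, M) * Nat.log 2 (sz π) ≤ Nat.log 2 M * Nat.log 2 M := by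
    rw [hB]
    exact Nat.div_mul_le_self _ _
  have hnA : (varList A).length ≤ sz π := by
    have a1 : (varList A).length ≤ (nms A).length := (dd_sublist _).length_le
    have a2 : (nms A).length ≤ sz (nms A) := (length_lt_sz _).le
    have a3 := sz_nms_le A
    have a4 := sz_mem_lt (List.mem_of_getLast? hπ.2)
    omega
  have hnneg : (varList (negVars A)).length = (varList A).length := by
    unfold negVars varList
    rw [nms_negv]
  have hbneg : bitLen (negVars A) = bitLen A := by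
    unfold bitLen
    rw [hnneg]
  have hneg : NarrowProof F (negVars A) (FnT.B (π, M) + q.K (true, A) * Nat.log 2 M)
      (q.gN (stNeg A, π)) := by
    have := hq.hN A _ π (stNeg A) (hπ.mono (hb true))
    rwa [stNeg_neg] at this
  unfold AsmT.out
  simp only
  rw [hl]
  have hPs' : ∀ (f : Bool) (A' : Fm) (ρ : List Fm) (j : ℕ)
      (hj : j < (q.Ps ((f, π, M), A', ρ)).length),
      (q.Ps ((f, π, M), A', ρ))[j] = q.P ((f, π, M), A', j + 1, ρ) := by
    intro f A' ρ j hj
    simp only [AsmT.Ps, List.getElem_map, List.getElem_range]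
  have hPl : ∀ (f : Bool) (A' : Fm) (ρ : List Fm),
      (q.Ps ((f, π, M), A', ρ)).length = (varList A').length := by
    intro f A' ρ
    simp [AsmT.Ps]
  refine hq.hL A _ _ _ _ ?_ (hPl _ _ _) ((hPl _ _ _).trans hnneg) ?_ ?_
  · have hn0 := varList_pos A
    have e1 : 2 ^ bitLen A ≤ 2 * (varList A).length := by
      unfold bitLen
      rw [pow_succ]
      have := Nat.pow_log_le_self 2 (x := (varList A).length) (by omega)
      omega
    have e2 : 2 ^ Nat.log 2 M ≤ M + 1 := by
      rcases Nat.eq_zero_or_pos M with h | h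
      · subst h; simp
      · have := Nat.pow_log_le_self 2 (x := M) (by omega)
        omega
    calc 2 ^ (bitLen A + 3 + 3 * Nat.log 2 M) =
          (2 ^ bitLen A) * 8 * (2 ^ Nat.log 2 M * 2 ^ Nat.log 2 M * 2 ^ Nat.log 2 M) := by
            have h3 : 3 * Nat.log 2 M = Nat.log 2 M + Nat.log 2 M + Nat.log 2 M := by ring
            rw [h3, pow_add, pow_add, pow_add, pow_add]; norm_num
      _ ≤ (2 * (varList A).length) * 8 * ((M + 1) * (M + 1) * (M + 1)) :=
            Nat.mul_le_mul (Nat.mul_le_mul_right _ e1)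
              (Nat.mul_le_mul (Nat.mul_le_mul e2 e2) e2)
      _ = 16 * (varList A).length * ((M + 1) * (M + 1) * (M + 1)) := by ring
  · intro j hj
    rw [hPs']
    exact asm_P_spec hF hq rfl rfl hl rfl rfl hBd hs hnA rfl (fun j => slice_tS A j)
      (hπ.mono (hb false)) (by omega)
  · intro j hj
    rw [hPs', ← hbneg]
    exact asm_P_spec hF hq rfl rfl hl rfl rfl hBd hs (by rw [hnneg]; exact hnA) hbneg
      (fun j => slice_neg_tS A j) hneg (by omega)

theorem groups_main {F : List Rule} (hF : IsFrege F) :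
    ∃ f : List Fm × ℕ → List Fm, Poly f ∧
      ∀ (A : Fm) (pre Ps : List Fm) (B : Fm) (pre' Ns : List Fm) (B' : Fm) (b M : ℕ)
        (π : List Fm), A = imps pre (imps Ps B) → Grp false Ps → A = imps pre' (imps Ns B') →
        Grp true Ns → NarrowProof F A b π →
        (b ≤ min Ps.length Ns.length * Nat.log 2 M ∨ b * Nat.log 2 (sz π) ≤ Nat.log 2 M ^ 2) →
        PermProof F A (f (π, M)) := by
  obtain ⟨gN, hN1, hN2⟩ := narrow_subst F
  obtain ⟨gB, hB1, hB2⟩ := brute hF
  obtain ⟨gS, hS1, hS2⟩ := narrow_to_subst hF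
  obtain ⟨gL, hL1, hL2⟩ := sliceB hF
  obtain ⟨gW, hW1, hW2⟩ := low_main hF
  obtain ⟨gP, hP1, hP2⟩ := spine_main
  refine ⟨(⟨gN, gS, gB, gL, gW, gP⟩ : AsmT).out, AsmT.asm_pout hN1 hS1 hB1 hW1 hP1 hL1, ?_⟩
  intro A pre Ps B pre' Ns B' b M π h1 h2 h3 h4 h5 h6
  exact asm_out_spec hF ⟨hN2, hS2, hB2, hL2, hW2, hP2⟩ h1 h2 h3 h4 h5 h6

end Pool.Agent.H.MP_0447ec_lc.PS
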