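import Pool.Agent.H.MP_0447ec_lc.LV.SubTime
import Pool.Agent.H.MP_0447ec_lc.LV.Brute
import Pool.Agent.H.MP_0447ec_lc.LV.BwSub
import Pool.Agent.H.MP_0447ec_lc.LV.DpB

/-!
# Formulas with nonconstant hypotheses

`imps Hs B` is `H₁ → (… → (H_K → B))`; the `H_i` have pairwise disjoint sets of variables and
none of them is satisfied by a constant assignment. The slice of `imps Hs B` with fewer than `K`
registers is true because `j` registers cannot satisfy `K > j` of the `H_i`.
-/

namespace Pool.Agent.H.MP_0447ec_lc.PS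

open Fm Pool.Agent.H.MP_0447ec_lc.PT

/-- The formula `H₁ → (H₂ → … → (H_K → B))`. -/
def imps (Hs : List Fm) (B : Fm) : Fm := Hs.foldr Fm.imp B

theorem imps_nil (B : Fm) : imps [] B = B := rfl
theorem imps_append (Hs Hs' : List Fm) (B : Fm) : imps (Hs ++ Hs') B = imps Hs (imps Hs' B) := by
  unfold imps
  rw [List.foldr_append]

theorem imps_cons (H : Fm) (Hs : List Fm) (B : Fm) : imps (H :: Hs) B = imp H (imps Hs B) := rfl

/-- The formula is not satisfied by a constant assignment. -/
def NonConst (H : Fm) : Prop := ¬ H.Eval (fun _ => True) ∧ ¬ H.Eval (fun _ => False)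

/-- Formulas with pairwise disjoint sets of variables none of which is satisfied by a constant
assignment. -/
def Blocks (Hs : List Fm) : Prop :=
  Hs.Pairwise (fun H H' => ∀ x ∈ H.vars, x ∉ H'.vars) ∧ ∀ H ∈ Hs, NonConst H

/-- Formulas with pairwise disjoint sets of variables none of which is satisfied by the
assignment with the constant value `f`. -/
def Grp (f : Bool) (Hs : List Fm) : Prop :=
  Hs.Pairwise (fun H H' => ∀ x ∈ H.vars, x ∉ H'.vars) ∧ ∀ H ∈ Hs, ¬ H.Eval (fun _ => f = true)

theorem Blocks.grp {Hs : List Fm} (h : Blocks Hs) (f : Bool) : Grp f Hs := by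
  refine ⟨h.1, fun H hH => ?_⟩
  obtain ⟨h1, h2⟩ := h.2 H hH
  cases f
  · simpa using h2
  · simpa using h1

/-- The code of the variable `x` of `A`. -/
def kap (A : Fm) (x : Nm) : List Bool := numCode (bitLen A) ((varList A).idxOf x)

/-- The first `J` registers. -/
def rgs (A : Fm) (J : ℕ) : List (List Nm) := (List.range J).map (regName (bitLen A))

/-- The substitution: `x` is replaced by the statement that one of the registers in `R` contains
its code (`f = false`), or by the negation of this statement (`f = true`). -/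
def tS (f : Bool) (R : List (List Nm)) (A : Fm) (x : Nm) : Fm :=
  if f then neg (anyr [] R (kap A x)) else anyr [] R (kap A x)

/-- A variable that is not a bit of a register. -/
def pz : Nm := fn 0 0 [false]

/-- The formulas in `Hs`, under the substitution `tS f R A`, imply the new variable `pz`. -/
def ZZ (f : Bool) (R : List (List Nm)) (A : Fm) (Hs : List Fm) : Fm :=
  imps (Hs.map (fun H => H.subst (tS f R A))) (var pz)

/-! ### Basic facts -/

theorem kap_length (A : Fm) (x : Nm) : (kap A x).length = bitLen A := numCode_length _ _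

theorem kap_inj {A : Fm} {x y : Nm} (hx : x ∈ A.vars) (hy : y ∈ A.vars)
    (h : kap A x = kap A y) : x = y := by
  have h1 : (varList A).idxOf x < (varList A).length :=
    List.idxOf_lt_length_of_mem (mem_varList.2 hx)
  have h2 : (varList A).idxOf y < (varList A).length :=
    List.idxOf_lt_length_of_mem (mem_varList.2 hy)
  have h3 := numCode_inj (lt_two_pow_bitLen h1) (lt_two_pow_bitLen h2) h
  have e1 := List.getElem_idxOf h1
  have e2 := List.getElem_idxOf h2
  rw [← e1, ← e2]
  simp only [h3]

theorem rgs_length (A : Fm) (J : ℕ) : (rgs A J).length = J := by simp [rgs]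

theorem rgs_succ (A : Fm) (J : ℕ) : rgs A (J + 1) = rgs A J ++ [regName (bitLen A) J] := by
  simp [rgs, List.range_succ]

theorem rgs_nodup (A : Fm) (J : ℕ) : (rgs A J).flatten.Nodup := regs_nodup _ _

theorem mem_rgs_length {A : Fm} {J : ℕ} {ys : List Nm} (h : ys ∈ rgs A J) :
    ys.length = bitLen A := by
  obtain ⟨i, -, rfl⟩ := List.mem_map.1 h
  exact regName_length _ _

theorem mem_rgs_nodup {A : Fm} {J : ℕ} {ys : List Nm} (h : ys ∈ rgs A J) : ys.Nodup :=
  (List.nodup_flatten.1 (rgs_nodup A J)).1 _ h

theorem pz_not_mem_rgs (A : Fm) (J : ℕ) : pz ∉ (rgs A J).flatten := by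
  unfold rgs
  rw [mem_regs]
  rintro ⟨J', -, k, -, h⟩
  have h1 := (fn_inj h).2
  cases k with
  | zero => simp at h1
  | succ k => simp [List.replicate_succ] at h1

theorem pz_ne_nil : pz ≠ [] := by
  intro h
  have := fn_length 0 0 [false]
  rw [show fn 0 0 [false] = pz from rfl, h] at this
  simp at this

theorem vars_anyr {d : Nm} {R : List (List Nm)} {w : List Bool} {x : Nm}
    (h : x ∈ (anyr d R w).vars) : x = d ∨ x ∈ R.flatten := by
  unfold anyr at h
  rw [vars_dj] at h
  rcases h with h | ⟨X, hX, hx⟩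
  · exact Or.inl h
  · obtain ⟨ys, hys, rfl⟩ := List.mem_map.1 hX
    rcases vars_eqr hx with hx | hx
    · exact Or.inl hx
    · exact Or.inr (List.mem_flatten.2 ⟨ys, hys, hx⟩)

theorem vars_tS {f : Bool} {R : List (List Nm)} {A : Fm} {x y : Nm}
    (h : y ∈ (tS f R A x).vars) : y = [] ∨ y ∈ R.flatten := by
  unfold tS at h
  split_ifs at h
  · exact vars_anyr (show y ∈ (anyr [] R (kap A x)).vars from h)
  · exact vars_anyr h

/-- The variables of the formula `A` in the form of slices. -/
theorem slice_tS (A : Fm) (J : ℕ) : slice A J = A.subst (tS false (rgs A J) A) := rfl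

theorem slice_neg_tS (A : Fm) (J : ℕ) :
    slice (negVars A) J = A.subst (tS true (rgs A J) A) := by
  unfold slice
  have h1 : varList (negVars A) = varList A := by
    unfold varList negVars
    rw [nms_negv]
  have h2 : bitLen (negVars A) = bitLen A := by unfold bitLen; rw [h1]
  rw [h1, h2]
  unfold negVars
  rw [Fm.subst_subst]
  rfl

section

variable {α : Type} [Enc α]

theorem sz_imps (Hs : List Fm) (B : Fm) : sz (imps Hs B) ≤ sz B + 11 * sz Hs := by
  induction Hs with
  | nil => rw [imps_nil]; omega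
  | cons H Hs ih =>
    rw [imps_cons, sz_imp, sz_lcons]
    have := sz_pos H
    omega

@[fun_prop]
theorem Poly.imps {Hs : α → List Fm} {B : α → Fm} (hH : Poly Hs) (hB : Poly B) :
    Poly (fun a => imps (Hs a) (B a)) := by
  unfold PS.imps
  refine Poly.foldr (f := fun p : α × Fm × Fm => Fm.imp p.2.2 p.2.1)
    (l := Hs) (s0 := B) (B := fun a => sz (B a) + 11 * sz (Hs a))
    (by fun_prop) (by fun_prop) hB
    (hB.sz_le.add ((PBdd.const 11).mul hH.sz_le)) ?_
  intro a l₁ l₂ h
  have h2 : sz l₂ ≤ sz (Hs a) := by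
    rw [h]; exact sz_sublist_le (List.sublist_append_right _ _)
  have h3 := sz_imps l₂ (B a)
  have h4 : l₂.foldr (fun b s => (fun p : α × Fm × Fm => Fm.imp p.2.2 p.2.1) (a, s, b)) (B a) =
      PS.imps l₂ (B a) := rfl
  rw [h4]
  omega

@[fun_prop]
theorem Poly.kap {A : α → Fm} {x : α → Nm} (hA : Poly A) (hx : Poly x) :
    Poly (fun a => kap (A a) (x a)) := by
  have h : Poly (fun a => List.idxOf (x a) (PS.varList (A a))) := by
    convert Poly.idxOf hx (Poly.varList hA) using 3
    exact lawful_beq_subsingleton _ _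
  unfold PS.kap
  fun_prop

@[fun_prop]
theorem Poly.rgs {A : α → Fm} {J : α → ℕ} (hA : Poly A) (hJ : Poly J) :
    Poly (fun a => rgs (A a) (J a)) := by
  unfold PS.rgs
  fun_prop

@[fun_prop]
theorem Poly.tS {f : α → Bool} {R : α → List (List Nm)} {A : α → Fm} {x : α → Nm}
    (hf : Poly f) (hR : Poly R) (hA : Poly A) (hx : Poly x) :
    Poly (fun a => tS (f a) (R a) (A a) (x a)) := by
  unfold PS.tS
  fun_prop

@[fun_prop]
theorem Poly.tSsubst {f : α → Bool} {R : α → List (List Nm)} {A D : α → Fm}
    (hf : Poly f) (hR : Poly R) (hA : Poly A) (hD : Poly D) :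
    Poly (fun a => (D a).subst (PS.tS (f a) (R a) (A a))) :=
  Poly.substP (s := fun a => PS.tS (f a) (R a) (A a)) (by fun_prop) hD

@[fun_prop]
theorem Poly.ZZ {f : α → Bool} {R : α → List (List Nm)} {A : α → Fm} {Hs : α → List Fm}
    (hf : Poly f) (hR : Poly R) (hA : Poly A) (hH : Poly Hs) :
    Poly (fun a => ZZ (f a) (R a) (A a) (Hs a)) := by
  unfold PS.ZZ
  fun_prop

end

/-! ### One-hot blocks -/

/-- The disjunction of a list of formulas. -/
def bigOr : List Fm → Fm
  | [] => neg (imp (var []) (var []))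
  | [A] => A
  | A :: B :: l => Fm.or A (bigOr (B :: l))

/-- The conjunction of a list of formulas. -/
def bigAnd : List Fm → Fm
  | [] => imp (var []) (var [])
  | [A] => A
  | A :: B :: l => Fm.and A (bigAnd (B :: l))

/-- No two variables of the list are true. -/
def amo : List Nm → List Fm
  | [] => []
  | x :: l => l.map (fun y => neg (Fm.and (var x) (var y))) ++ amo l

/-- Exactly one variable of the list is true. -/
def oh (b : List Nm) : Fm := Fm.and (bigOr (b.map var)) (bigAnd (amo b))

/-- The formula `oh b₁ → (… → (oh b_K → B))`. -/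
def ohs (bs : List (List Nm)) (B : Fm) : Fm := bs.foldr (fun b X => imp (oh b) X) B

end Pool.Agent.H.MP_0447ec_lc.PS
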