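import Pool.Agent.H.MP_0447ec_lc.LV.SliceA
import Pool.Agent.H.MP_0447ec_lc.LV.BwB
import Pool.Agent.H.MP_0447ec_lc.OH.Defs
import Pool.Agent.H.MP_0447ec_lc.LV.Slices

/-!
# From the permutation rule to extended Frege proofs of bounded bandwidth

A proof of `A` with the permutation rule gives a substitution Frege proof of the slice of `A` with
`n` registers, `n` the number of variables of `A`. The register with number `i` is replaced by the
code of the variable `xᵢ` if `xᵢ` is true and by zeros otherwise, this gives `A`.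
-/

namespace Pool.Agent.H.MP_0447ec_lc.PS

open Fm Pool.Agent.H.MP_0447ec_lc.PT

/-- A bit of the register of the variable `x`. -/
def bkE (x : Nm) (b : Bool) : Fm := if b then var x else ct x false

/-- The table for the bits of the registers. -/
def bkT (A : Fm) : List (Nm × Fm) :=
  (varList A).zipIdx.flatMap (fun p =>
    (regName (bitLen A) p.2).zip ((numCode (bitLen A) p.2).map (bkE p.1)))

/-- The register of `p` contains the code of `x`. -/
def bkX (A : Fm) (x : Nm) (p : Nm × ℕ) : Fm :=
  (eqr [] (regName (bitLen A) p.2) (kap A x)).subst (tsub (bkT A))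

/-- The simplified form of `bkX A x p`. -/
def bkC (x : Nm) (p : Nm × ℕ) : Fm := if p.1 = x then var x else ct x false

/-- The pairs of disjuncts. -/
def bkP (A : Fm) (x : Nm) : List (Fm × Fm) :=
  (varList A).zipIdx.map (fun p => (bkX A x p, bkC x p))

/-! ### The table -/

theorem bkT_fst (A : Fm) : (bkT A).map Prod.fst = (rgs A (varList A).length).flatten := by
  unfold bkT rgs
  rw [List.map_flatMap]
  have h1 : ∀ p : Nm × ℕ, List.map Prod.fst ((regName (bitLen A) p.2).zip
      ((numCode (bitLen A) p.2).map (bkE p.1))) = regName (bitLen A) p.2 := by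
    intro p
    rw [List.map_fst_zip]
    simp [regName_length, numCode_length]
  simp only [h1]
  rw [← List.flatMap_map (fun p : Nm × ℕ => p.2) (regName (bitLen A))]
  have h2 : List.map (fun p : Nm × ℕ => p.2) (varList A).zipIdx =
      List.range (varList A).length := by
    have := List.zipIdx_map_snd 0 (varList A)
    rw [List.range_eq_range']
    exact this
  rw [h2, List.flatMap_def]

theorem bkT_nodup (A : Fm) : ((bkT A).map Prod.fst).Nodup := by
  rw [bkT_fst]; exact rgs_nodup _ _

theorem bkT_nil (A : Fm) : tsub (bkT A) [] = var [] := by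
  apply tsub_of_not_mem
  rw [bkT_fst]
  exact nil_not_mem_regs _ _

theorem bkT_bit {A : Fm} {p : Nm × ℕ} (hp : p ∈ (varList A).zipIdx) {k : ℕ}
    (hk : k < (regName (bitLen A) p.2).length) (hk' : k < (numCode (bitLen A) p.2).length) :
    tsub (bkT A) (regName (bitLen A) p.2)[k] = bkE p.1 (numCode (bitLen A) p.2)[k] := by
  refine tsub_of_mem ?_ (bkT_nodup A)
  unfold bkT
  refine List.mem_flatMap.2 ⟨p, hp, ?_⟩
  rw [List.mem_iff_getElem]
  refine ⟨k, by simp [regName_length, numCode_length] at hk ⊢; omega, ?_⟩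
  simp

/-- The value of a register. -/
def bkA (A : Fm) (i : ℕ) (b : Bool) : List Bool := (numCode (bitLen A) i).map (fun c => b && c)

theorem sm_bkX {A : Fm} {x : Nm} {p : Nm × ℕ} (hp : p ∈ (varList A).zipIdx) (b : Bool) :
    sm [(p.1, b)] (bkX A x p) = (some (decide (bkA A p.2 b = kap A x)), var []) := by
  have hn : (regName (bitLen A) p.2).Nodup := by
    refine (List.nodup_flatten.1 (regs_nodup (bitLen A) (p.2 + 1))).1 _ ?_
    exact List.mem_map_of_mem (List.mem_range.2 (by omega))
  have ha : (bkA A p.2 b).length = (regName (bitLen A) p.2).length := by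
    simp [bkA, numCode_length, regName_length]
  have hw : (kap A x).length = (regName (bitLen A) p.2).length := by
    rw [kap_length, regName_length]
  unfold bkX eqr
  rw [dp_cj_subst (bkT_nil A), List.map_map]
  rw [sm_cj_val (Fm.subst (tsub (bkT A)) ∘ fun p : Nm × Bool => lit p.1 p.2)
    (fun q => decide ((lk ((regName (bitLen A) p.2).zip (bkA A p.2 b)) q.1).getD false = q.2))]
  · rw [all_zip_eq (v := fun y => (lk ((regName (bitLen A) p.2).zip (bkA A p.2 b)) y).getD false)
      ha hw]
    intro q hq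
    rw [lk_zip hn hq]
    rfl
  · intro q hq
    obtain ⟨k, hk, hk2⟩ := List.getElem_of_mem (List.of_mem_zip hq).1
    have hk3 : k < (numCode (bitLen A) p.2).length := by
      rw [numCode_length]; rwa [regName_length] at hk
    have h1 := bkT_bit hp hk hk3
    have h2 : (q.1, b && (numCode (bitLen A) p.2)[k]) ∈
        (regName (bitLen A) p.2).zip (bkA A p.2 b) := by
      rw [List.mem_iff_getElem]
      refine ⟨k, by simp [List.length_zip, ha]; exact hk, ?_⟩
      simp [bkA, hk2]
    have h3 := lk_zip hn h2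
    simp only at h3
    have h4 : sm [(p.1, b)] (tsub (bkT A) q.1) =
        (some (b && (numCode (bitLen A) p.2)[k]), var []) := by
      rw [← hk2, h1]
      unfold bkE
      cases hc : (numCode (bitLen A) p.2)[k] with
      | true =>
        rw [if_pos rfl, sm_var]
        unfold smV lk
        simp
      | false =>
        rw [if_neg (by simp), sm_ct]
        simp
    obtain ⟨y, c⟩ := q
    simp only at h3 h4 ⊢
    rw [h3]
    cases c
    · show smN (sm _ (tsub (bkT A) y)) = _
      rw [h4]
      cases b <;> cases (numCode (bitLen A) p.2)[k] <;> rfl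
    · show sm _ (tsub (bkT A) y) = _
      rw [h4]
      cases b <;> cases (numCode (bitLen A) p.2)[k] <;> rfl

theorem bkA_eq {A : Fm} {x : Nm} (hx : x ∈ A.vars) {p : Nm × ℕ}
    (hp : p ∈ (varList A).zipIdx) (b : Bool) :
    decide (bkA A p.2 b = kap A x) = (decide (p.1 = x) && b) := by
  have h1 := List.mem_zipIdx hp
  have hi : p.2 < (varList A).length := by omega
  have hpx : p.1 = (varList A)[p.2] := by
    have := h1.2.2
    simpa using this
  have hxi : (varList A).idxOf x < (varList A).length :=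
    List.idxOf_lt_length_of_mem (mem_varList.2 hx)
  cases b with
  | false =>
    rw [Bool.and_false, decide_eq_false_iff_not]
    intro h
    have h2 : true ∈ kap A x := numCode_true (lt_two_pow_bitLen hxi)
    rw [← h] at h2
    unfold bkA at h2
    simp at h2
  | true =>
    rw [Bool.and_true]
    have h2 : bkA A p.2 true = numCode (bitLen A) p.2 := by
      unfold bkA
      simp
    rw [h2]
    congr 1
    rw [eq_iff_iff]
    constructor
    · intro h
      have h3 := numCode_inj (lt_two_pow_bitLen hi) (lt_two_pow_bitLen hxi) h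
      rw [hpx]
      simp only [h3]
      exact List.getElem_idxOf hxi
    · intro h
      have h4 : (varList A).idxOf x = p.2 := by
        rw [← h, hpx]
        exact (varList_nodup A).idxOf_getElem _ _
      unfold kap
      rw [h4]

theorem sm_bkC {x : Nm} {p : Nm × ℕ} (b : Bool) :
    sm [(p.1, b)] (bkC x p) = (some (decide (p.1 = x) && b), var []) := by
  unfold bkC
  by_cases h : p.1 = x
  · rw [if_pos h, ← h, sm_var]
    unfold smV lk
    simp
  · rw [if_neg h, sm_ct]
    simp [h]

theorem sm_bk {A : Fm} {x : Nm} (hx : x ∈ A.vars) {p : Nm × ℕ} (hp : p ∈ (varList A).zipIdx)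
    (b : Bool) : sm [(p.1, b)] (Fm.iff (bkX A x p) (bkC x p)) = (some true, var []) := by
  have h : sm [(p.1, b)] (bkX A x p) = sm [(p.1, b)] (bkC x p) := by
    rw [sm_bkX hp, sm_bkC, bkA_eq hx hp]
  unfold Fm.iff
  rw [sm_and, sm_imp_self h, sm_imp_self h.symm]
  rfl

/-! ### The lines -/

/-- The hypothesis: a true formula. -/
def bkH : Fm := ct [] true

/-- Lines for one disjunct. -/
def bkL1 (A : Fm) (x : Nm) (p : Nm × ℕ) : List Fm :=
  [true, false].flatMap (fun b => projL (Fm.and (lit p.1 b) bkH) ++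
    smL (Fm.and (lit p.1 b) bkH) [(p.1, b)] (Fm.iff (bkX A x p) (bkC x p))) ++
  [imp bkH (Fm.iff (bkX A x p) (bkC x p))]

theorem bkL1_just {G : List Rule} (hG : Rich G) {A : Fm} {x : Nm} (hx : x ∈ A.vars)
    {p : Nm × ℕ} (hp : p ∈ (varList A).zipIdx) (π : List Fm) :
    Just (RuleStep G) π (bkL1 A x p) ∧
      imp bkH (Fm.iff (bkX A x p) (bkC x p)) ∈ bkL1 A x p := by
  have key : ∀ (b : Bool) (π : List Fm),
      Just (RuleStep G) π (projL (Fm.and (lit p.1 b) bkH) ++
        smL (Fm.and (lit p.1 b) bkH) [(p.1, b)] (Fm.iff (bkX A x p) (bkC x p))) ∧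
      imp (Fm.and (lit p.1 b) bkH) (Fm.iff (bkX A x p) (bkC x p)) ∈
        projL (Fm.and (lit p.1 b) bkH) ++
        smL (Fm.and (lit p.1 b) bkH) [(p.1, b)] (Fm.iff (bkX A x p) (bkC x p)) := by
    intro b π
    obtain ⟨j, m⟩ := smL_just hG (Fm.and (lit p.1 b) bkH) [(p.1, b)]
      (Fm.iff (bkX A x p) (bkC x p)) (π ++ projL (Fm.and (lit p.1 b) bkH)) (by
        intro q hq
        rw [List.mem_singleton] at hq
        subst hq
        refine List.mem_append_right _ (mem_projL ?_)
        simp only [ands, List.mem_cons, List.mem_append]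
        exact Or.inr (Or.inl (self_mem_ands _)))
    refine ⟨Just.append (projL_just hG _ _) j, List.mem_append_right _ ?_⟩
    rw [sm_bk hx hp b] at m
    exact m
  have e : bkL1 A x p =
      (projL (Fm.and (lit p.1 true) bkH) ++
        smL (Fm.and (lit p.1 true) bkH) [(p.1, true)] (Fm.iff (bkX A x p) (bkC x p))) ++
      ((projL (Fm.and (lit p.1 false) bkH) ++
        smL (Fm.and (lit p.1 false) bkH) [(p.1, false)] (Fm.iff (bkX A x p) (bkC x p))) ++
      [imp bkH (Fm.iff (bkX A x p) (bkC x p))]) := by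
    simp [bkL1]
  rw [e]
  refine ⟨?_, by simp⟩
  obtain ⟨j1, m1⟩ := key true π
  refine Just.append j1 ?_
  obtain ⟨j2, m2⟩ := key false (π ++ (projL (Fm.and (lit p.1 true) bkH) ++
        smL (Fm.and (lit p.1 true) bkH) [(p.1, true)] (Fm.iff (bkX A x p) (bkC x p))))
  refine Just.append j2 ⟨Or.inr ?_, trivial⟩
  exact hG.cases (A := var p.1) (List.mem_append_left _ (List.mem_append_right _ m1))
    (List.mem_append_right _ m2)

/-- Equivalence of two disjunctions. -/
def djC (H : Fm) : List (Fm × Fm) → List Fm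
  | [] => [imp H (Fm.iff (dj [] []) (dj [] []))]
  | p :: l => djC H l ++ [imp H (Fm.iff (dj [] ((p :: l).map Prod.fst))
      (dj [] ((p :: l).map Prod.snd)))]

theorem djC_just {G : List Rule} (hG : Rich G) {H : Fm} : ∀ {l : List (Fm × Fm)} {π : List Fm},
    (∀ p ∈ l, imp H (Fm.iff p.1 p.2) ∈ π) →
    Just (RuleStep G) π (djC H l) ∧
      imp H (Fm.iff (dj [] (l.map Prod.fst)) (dj [] (l.map Prod.snd))) ∈ djC H l := by
  intro l
  induction l with
  | nil =>
    intro π _
    exact ⟨⟨Or.inr hG.iffRefl, trivial⟩, by simp [djC]⟩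
  | cons p l ih =>
    intro π h
    obtain ⟨j, m⟩ := ih (fun q hq => h q (List.mem_cons_of_mem _ hq))
    refine ⟨Just.append j ⟨Or.inr ?_, trivial⟩, by simp [djC]⟩
    simp only [List.map_cons, dj_cons]
    exact hG.cong 3 (by simp) (List.mem_append_left _ (h p (by simp)))
      (List.mem_append_right _ m)

theorem djC_eq_sp (H : Fm) : ∀ (l pre : List (Fm × Fm)), djC H l =
    imp H (Fm.iff (dj [] []) (dj [] [])) :: (sp pre l).reverse.map (fun p =>
      imp H (Fm.iff (dj [] ((p.2.1 :: p.2.2).map Prod.fst))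
        (dj [] ((p.2.1 :: p.2.2).map Prod.snd)))) := by
  intro l
  induction l with
  | nil => intro pre; simp [djC, sp]
  | cons A l ih => intro pre; rw [djC, ih (pre ++ [A]), sp]; simp

/-- The slice with the table, for one variable. -/
def bkU (A : Fm) (x : Nm) : Fm :=
  (anyr [] (rgs A (varList A).length) (kap A x)).subst (tsub (bkT A))

theorem bkU_eq (A : Fm) (x : Nm) : bkU A x = dj [] ((bkP A x).map Prod.fst) := by
  unfold bkU anyr bkP
  rw [dp_dj_subst (bkT_nil A), List.map_map, List.map_map]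
  congr 1
  have h2 : List.map (fun p : Nm × ℕ => p.2) (varList A).zipIdx =
      List.range (varList A).length := by
    have := List.zipIdx_map_snd 0 (varList A)
    rw [List.range_eq_range']
    exact this
  unfold rgs
  rw [← h2, List.map_map, List.map_map]
  rfl

theorem sm_bkR {A : Fm} {x : Nm} (hx : x ∈ A.vars) :
    sm [] (dj [] ((bkP A x).map Prod.snd)) = (none, var x) := by
  have hv : sm [] (var x) = (none, var x) := by
    rw [sm_var]; rfl
  have key : ∀ (l : List (Nm × ℕ)), (x ∈ l.map Prod.fst → (l.map Prod.fst).Nodup →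
      sm [] (dj [] (l.map (bkC x))) = (none, var x)) ∧
      (x ∉ l.map Prod.fst → sm [] (dj [] (l.map (bkC x))) = (some false, var [])) := by
    intro l
    induction l with
    | nil =>
      refine ⟨fun h => absurd h (by simp), fun _ => ?_⟩
      rw [List.map_nil, dj_nil, sm_ct]
    | cons p l ih =>
      rw [List.map_cons, List.map_cons, dj_cons, sm_or]
      constructor
      · intro h hn
        rw [List.nodup_cons] at hn
        by_cases hp : p.1 = x
        · have h2 : x ∉ l.map Prod.fst := hp ▸ hn.1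
          rw [ih.2 h2]
          unfold bkC
          rw [if_pos hp, hv]
          rfl
        · have h2 : x ∈ l.map Prod.fst := by
            rcases List.mem_cons.1 h with h | h
            · exact absurd h.symm hp
            · exact h
          rw [ih.1 h2 hn.2]
          unfold bkC
          rw [if_neg hp, sm_ct]
          rfl
      · intro h
        rw [List.mem_cons, not_or] at h
        rw [ih.2 h.2]
        unfold bkC
        rw [if_neg (fun e => h.1 e.symm), sm_ct]
        rfl
  have h1 : (varList A).zipIdx.map Prod.fst = varList A := List.zipIdx_map_fst 0 _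
  have h2 := (key (varList A).zipIdx).1 (by rw [h1]; exact mem_varList.2 hx)
    (by rw [h1]; exact varList_nodup A)
  unfold bkP
  rw [List.map_map]
  exact h2

/-- Lines for the equivalence of `bkU A x` and `x`. -/
def bkL2 (A : Fm) (x : Nm) : List Fm :=
  (varList A).zipIdx.flatMap (bkL1 A x) ++ (djC bkH (bkP A x) ++
  (smL bkH [] (dj [] ((bkP A x).map Prod.snd)) ++
  [imp bkH (Fm.iff (var x) (dj [] ((bkP A x).map Prod.snd))),
   imp bkH (imp (bkU A x) (var x)), imp bkH (imp (var x) (bkU A x)),
   imp bkH (Fm.iff (bkU A x) (var x))]))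

theorem bkL2_just {G : List Rule} (hG : Rich G) {A : Fm} {x : Nm} (hx : x ∈ A.vars)
    (π : List Fm) : Just (RuleStep G) π (bkL2 A x) ∧
      imp bkH (Fm.iff (bkU A x) (var x)) ∈ bkL2 A x := by
  refine ⟨?_, by simp [bkL2]⟩
  have j1 : Just (RuleStep G) π ((varList A).zipIdx.flatMap (bkL1 A x)) :=
    Just.flatMap (mono_ruleStep G) _ _ _ (fun p hp => (bkL1_just hG hx hp π).1)
  refine Just.append j1 ?_
  obtain ⟨j2, m2⟩ := djC_just hG (H := bkH) (l := bkP A x)
    (π := π ++ (varList A).zipIdx.flatMap (bkL1 A x)) (by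
      intro q hq
      obtain ⟨p, hp, rfl⟩ := List.mem_map.1 hq
      exact List.mem_append_right _ (List.mem_flatMap.2 ⟨p, hp, (bkL1_just hG hx hp π).2⟩))
  refine Just.append j2 ?_
  obtain ⟨j3, m3⟩ := smL_just hG bkH [] (dj [] ((bkP A x).map Prod.snd))
    (π ++ (varList A).zipIdx.flatMap (bkL1 A x) ++ djC bkH (bkP A x)) (by simp)
  refine Just.append j3 ?_
  rw [sm_bkR hx] at m3
  rw [← bkU_eq] at m2
  have a1 := List.mem_append_left (smL bkH [] (dj [] ((bkP A x).map Prod.snd)))
    (List.mem_append_right (π ++ (varList A).zipIdx.flatMap (bkL1 A x)) m2)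
  have a2 := List.mem_append_right (π ++ (varList A).zipIdx.flatMap (bkL1 A x) ++
    djC bkH (bkP A x)) m3
  generalize π ++ (varList A).zipIdx.flatMap (bkL1 A x) ++ djC bkH (bkP A x) ++
    smL bkH [] (dj [] ((bkP A x).map Prod.snd)) = τ at a1 a2
  refine ⟨Or.inr (hG.iffSymm a2), Or.inr (hG.impEq (R := dj [] ((bkP A x).map Prod.snd))
    ?_ ?_), Or.inr (hG.impEq (R := dj [] ((bkP A x).map Prod.snd)) ?_ ?_),
    Or.inr (hG.andI ?_ ?_), trivial⟩
  · exact List.mem_append_left _ a1
  · simp
  · simp
  · simp only [List.mem_append]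
    exact Or.inl (Or.inl a1)
  · simp
  · simp

theorem bk_subst_var (A : Fm) : A.subst var = A := by
  induction A with
  | var w => rfl
  | neg A ih => simp only [Fm.subst, ih]
  | and A B ih1 ih2 => simp only [Fm.subst, ih1, ih2]
  | or A B ih1 ih2 => simp only [Fm.subst, ih1, ih2]
  | imp A B ih1 ih2 => simp only [Fm.subst, ih1, ih2]

/-- The lines that derive `A` from the substituted slice. -/
def bkL (A : Fm) : List Fm :=
  (varList A).flatMap (bkL2 A) ++ (replL bkH A (bkU A) var ++
    [imp bkH (A.subst (bkU A)), imp bkH A, A])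

theorem bkL_just {G : List Rule} (hG : Rich G) {A : Fm} {π : List Fm}
    (h : A.subst (bkU A) ∈ π) : Just (RuleStep G) π (bkL A) ∧ A ∈ bkL A := by
  refine ⟨?_, by simp [bkL]⟩
  have j1 : Just (RuleStep G) π ((varList A).flatMap (bkL2 A)) :=
    Just.flatMap (mono_ruleStep G) _ _ _
      (fun x hx => (bkL2_just hG (mem_varList.1 hx) π).1)
  refine Just.append j1 ?_
  obtain ⟨j2, m2⟩ := replL_just hG bkH (bkU A) var A (π ++ (varList A).flatMap (bkL2 A)) (by
    intro x hx
    exact List.mem_append_right _ (List.mem_flatMap.2 ⟨x, mem_varList.2 hx,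
      (bkL2_just hG hx π).2⟩))
  refine Just.append j2 ?_
  rw [bk_subst_var] at m2
  refine ⟨Or.inr (hG.weaken ?_), Or.inr (hG.iffMp (A := A.subst (bkU A)) ?_ ?_),
    Or.inr (hG.strip (H := var []) ?_), trivial⟩
  · exact List.mem_append_left _ (List.mem_append_left _ h)
  · simp
  · exact List.mem_append_left _ (List.mem_append_right _ m2)
  · simp [bkH, ct]

/-! ### Variables -/

theorem bkE_vars {x y : Nm} {b : Bool} (h : y ∈ (bkE x b).vars) : y = x := by
  unfold bkE at h
  split_ifs at h
  · exact h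
  · exact vars_ct.1 h

theorem bkT_vars {A : Fm} {p : Nm × Fm} (hp : p ∈ bkT A) {y : Nm} (hy : y ∈ p.2.vars) :
    y ∈ A.vars := by
  unfold bkT at hp
  obtain ⟨q, hq, hp⟩ := List.mem_flatMap.1 hp
  obtain ⟨b, -, hb⟩ := List.mem_map.1 (List.of_mem_zip hp).2
  rw [← hb] at hy
  rw [bkE_vars hy, ← mem_varList]
  have h1 := List.mem_zipIdx hq
  rw [h1.2.2]
  exact List.getElem_mem _

theorem bk_tsub_vars {A D : Fm} {y : Nm} (hy : y ∈ (D.subst (tsub (bkT A))).vars) :
    y ∈ D.vars ∨ y ∈ A.vars := by
  obtain ⟨x, hx, hy⟩ := vars_subst hy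
  by_cases hx' : x ∈ (bkT A).map Prod.fst
  · obtain ⟨p, hp, rfl⟩ := List.mem_map.1 hx'
    rw [tsub_of_mem (A := p.2) hp (bkT_nodup A)] at hy
    exact Or.inr (bkT_vars hp hy)
  · rw [tsub_of_not_mem hx'] at hy
    left
    have : y = x := hy
    rw [this]
    exact hx

/-- The variables that may occur in the lines. -/
def bkV (A : Fm) : List Nm := varList A ++ ((rgs A (varList A).length).flatten ++ [[]])

theorem bkX_vars {A : Fm} {x y : Nm} {p : Nm × ℕ} (hp : p ∈ (varList A).zipIdx)
    (hy : y ∈ (bkX A x p).vars) : y ∈ bkV A := by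
  unfold bkV
  rcases bk_tsub_vars hy with h | h
  · rcases vars_eqr h with h | h
    · rw [h]; simp
    · refine List.mem_append_right _ (List.mem_append_left _ (List.mem_flatten.2
        ⟨_, List.mem_map_of_mem (List.mem_range.2 ?_), h⟩))
      have := List.mem_zipIdx hp
      omega
  · exact List.mem_append_left _ (mem_varList.2 h)

theorem bkC_vars {x y : Nm} {p : Nm × ℕ} (hy : y ∈ (bkC x p).vars) : y = x := by
  unfold bkC at hy
  split_ifs at hy
  · exact hy
  · exact vars_ct.1 hy

theorem bkH_vars {A : Fm} {y : Nm} (hy : y ∈ bkH.vars) : y ∈ bkV A := by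
  rw [vars_ct.1 hy]
  unfold bkV
  simp

theorem bk_iff_vars {X Y : Fm} {y : Nm} (hy : y ∈ (Fm.iff X Y).vars) :
    y ∈ X.vars ∨ y ∈ Y.vars := by
  rcases hy with (h | h) | (h | h)
  · exact Or.inl h
  · exact Or.inr h
  · exact Or.inr h
  · exact Or.inl h

theorem bkI_vars {A : Fm} {x y : Nm} (hx : x ∈ A.vars) {p : Nm × ℕ}
    (hp : p ∈ (varList A).zipIdx) (hy : y ∈ (Fm.iff (bkX A x p) (bkC x p)).vars) :
    y ∈ bkV A := by
  rcases bk_iff_vars hy with h | h
  · exact bkX_vars hp h
  · rw [bkC_vars h]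
    exact List.mem_append_left _ (mem_varList.2 hx)

theorem bkL1_vars {A : Fm} {x y : Nm} (hx : x ∈ A.vars) {p : Nm × ℕ}
    (hp : p ∈ (varList A).zipIdx) {C : Fm} (hC : C ∈ bkL1 A x p) (hy : y ∈ C.vars) :
    y ∈ bkV A := by
  have hH : ∀ b : Bool, y ∈ (Fm.and (lit p.1 b) bkH).vars → y ∈ bkV A := by
    rintro b (h | h)
    · rw [vars_lit.1 h]
      refine List.mem_append_left _ ?_
      have h1 := List.mem_zipIdx hp
      rw [h1.2.2]
      exact List.getElem_mem _
    · exact bkH_vars h
  unfold bkL1 at hC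
  rcases List.mem_append.1 hC with hC | hC
  · obtain ⟨b, -, hC⟩ := List.mem_flatMap.1 hC
    rcases List.mem_append.1 hC with hC | hC
    · exact hH b (projL_vars hC hy)
    · rcases smL_vars hC hy with h | h
      · exact hH b h
      · exact bkI_vars hx hp h
  · rw [List.mem_singleton] at hC
    subst hC
    rcases hy with h | h
    · exact bkH_vars h
    · exact bkI_vars hx hp h

theorem djC_vars {A H : Fm} {y : Nm} (hH : y ∈ H.vars → y ∈ bkV A) : ∀ {l : List (Fm × Fm)},
    (∀ p ∈ l, (y ∈ p.1.vars → y ∈ bkV A) ∧ (y ∈ p.2.vars → y ∈ bkV A)) → ∀ C ∈ djC H l,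
    y ∈ C.vars → y ∈ bkV A := by
  have hnil : y = [] → y ∈ bkV A := by
    intro h
    rw [h]; unfold bkV; simp
  have hdj : ∀ l : List Fm, (∀ X ∈ l, y ∈ X.vars → y ∈ bkV A) → y ∈ (dj [] l).vars →
      y ∈ bkV A := by
    intro l h hy
    rw [vars_dj] at hy
    rcases hy with hy | ⟨X, hX, hy⟩
    · exact hnil hy
    · exact h X hX hy
  have hline : ∀ l : List (Fm × Fm),
      (∀ p ∈ l, (y ∈ p.1.vars → y ∈ bkV A) ∧ (y ∈ p.2.vars → y ∈ bkV A)) →
      y ∈ (imp H (Fm.iff (dj [] (l.map Prod.fst)) (dj [] (l.map Prod.snd)))).vars →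
      y ∈ bkV A := by
    intro l h hy
    rcases hy with hy | hy
    · exact hH hy
    · rcases bk_iff_vars hy with hy | hy
      · refine hdj _ ?_ hy
        intro X hX
        obtain ⟨p, hp, rfl⟩ := List.mem_map.1 hX
        exact (h p hp).1
      · refine hdj _ ?_ hy
        intro X hX
        obtain ⟨p, hp, rfl⟩ := List.mem_map.1 hX
        exact (h p hp).2
  intro l
  induction l with
  | nil =>
    intro h C hC hy
    simp only [djC, List.mem_singleton] at hC
    subst hC
    exact hline [] h hy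
  | cons p l ih =>
    intro h C hC hy
    simp only [djC, List.mem_append, List.mem_singleton] at hC
    rcases hC with hC | hC
    · exact ih (fun q hq => h q (List.mem_cons_of_mem _ hq)) C hC hy
    · subst hC
      exact hline (p :: l) h hy

theorem bkU_vars {A : Fm} {x y : Nm} (hy : y ∈ (bkU A x).vars) : y ∈ bkV A := by
  unfold bkU at hy
  unfold bkV
  rcases bk_tsub_vars hy with h | h
  · rcases vars_anyr h with h | h
    · rw [h]; simp
    · exact List.mem_append_right _ (List.mem_append_left _ h)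
  · exact List.mem_append_left _ (mem_varList.2 h)

theorem bkR_vars {A : Fm} {x y : Nm} (hx : x ∈ A.vars)
    (hy : y ∈ (dj [] ((bkP A x).map Prod.snd)).vars) : y ∈ bkV A := by
  rw [vars_dj] at hy
  rcases hy with hy | ⟨X, hX, hy⟩
  · rw [hy]; unfold bkV; simp
  · obtain ⟨q, hq, rfl⟩ := List.mem_map.1 hX
    obtain ⟨p, hp, rfl⟩ := List.mem_map.1 hq
    rw [bkC_vars hy]
    exact List.mem_append_left _ (mem_varList.2 hx)

theorem bkL2_vars {A : Fm} {x y : Nm} (hx : x ∈ A.vars) {C : Fm} (hC : C ∈ bkL2 A x)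
    (hy : y ∈ C.vars) : y ∈ bkV A := by
  have hxV : x ∈ bkV A := List.mem_append_left _ (mem_varList.2 hx)
  have hvx : y ∈ (var x).vars → y ∈ bkV A := by
    intro h
    have : y = x := h
    rw [this]; exact hxV
  unfold bkL2 at hC
  simp only [List.mem_append, List.mem_cons, List.not_mem_nil, or_false] at hC
  rcases hC with hC | hC | hC | hC | hC | hC | hC
  · obtain ⟨p, hp, hC⟩ := List.mem_flatMap.1 hC
    exact bkL1_vars hx hp hC hy
  · refine djC_vars bkH_vars ?_ C hC hy
    intro q hq
    obtain ⟨p, hp, rfl⟩ := List.mem_map.1 hq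
    refine ⟨bkX_vars hp, fun h => ?_⟩
    rw [bkC_vars h]; exact hxV
  · rcases smL_vars hC hy with h | h
    · exact bkH_vars h
    · exact bkR_vars hx h
  · subst hC
    rcases hy with hy | hy
    · exact bkH_vars hy
    · rcases bk_iff_vars hy with hy | hy
      · exact hvx hy
      · exact bkR_vars hx hy
  · subst hC
    rcases hy with hy | hy | hy
    · exact bkH_vars hy
    · exact bkU_vars hy
    · exact hvx hy
  · subst hC
    rcases hy with hy | hy | hy
    · exact bkH_vars hy
    · exact hvx hy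
    · exact bkU_vars hy
  · subst hC
    rcases hy with hy | hy
    · exact bkH_vars hy
    · rcases bk_iff_vars hy with hy | hy
      · exact bkU_vars hy
      · exact hvx hy

theorem bkS_vars {A D : Fm} {y : Nm} (hy : y ∈ (D.subst (bkU A)).vars) : y ∈ bkV A := by
  obtain ⟨x, -, hy⟩ := vars_subst hy
  exact bkU_vars hy

theorem bkL_vars {A C : Fm} {y : Nm} (hC : C ∈ bkL A) (hy : y ∈ C.vars) : y ∈ bkV A := by
  have hA : y ∈ A.vars → y ∈ bkV A := fun h => List.mem_append_left _ (mem_varList.2 h)
  unfold bkL at hC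
  simp only [List.mem_append, List.mem_cons, List.not_mem_nil, or_false] at hC
  rcases hC with hC | hC | hC | hC | hC
  · obtain ⟨x, hx, hC⟩ := List.mem_flatMap.1 hC
    exact bkL2_vars (mem_varList.1 hx) hC hy
  · unfold replL at hC
    obtain ⟨X, hX, rfl⟩ := List.mem_map.1 hC
    rcases hy with hy | hy
    · exact bkH_vars hy
    · rcases bk_iff_vars hy with hy | hy
      · exact bkS_vars hy
      · rw [bk_subst_var] at hy
        exact hA (vars_of_mem_subs (List.mem_reverse.1 hX) _ hy)
  · subst hC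
    rcases hy with hy | hy
    · exact bkH_vars hy
    · exact bkS_vars hy
  · subst hC
    rcases hy with hy | hy
    · exact bkH_vars hy
    · exact hA hy
  · subst hC
    exact hA hy

theorem bkV_length (A : Fm) : (bkV A).length =
    (varList A).length + ((varList A).length * bitLen A + 1) := by
  unfold bkV
  have h3 : (rgs A (varList A).length).flatten.length = (varList A).length * bitLen A := by
    unfold rgs
    rw [List.length_flatten, List.map_map]
    have h4 : (List.length ∘ regName (bitLen A)) = fun _ => bitLen A := by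
      funext J
      exact regName_length _ _
    rw [h4]
    simp
  rw [List.length_append, List.length_append, h3, List.length_singleton]

section

variable {α : Type} [Enc α]

@[fun_prop]
theorem Poly.bkE {x : α → Nm} {b : α → Bool} (hx : Poly x) (hb : Poly b) :
    Poly (fun a => bkE (x a) (b a)) := by
  unfold PS.bkE
  fun_prop

@[fun_prop]
theorem Poly.bkT {A : α → Fm} (hA : Poly A) : Poly (fun a => bkT (A a)) := by
  unfold PS.bkT
  fun_prop

@[fun_prop]
theorem Poly.bkX {A : α → Fm} {x : α → Nm} {p : α → Nm × ℕ} (hA : Poly A) (hx : Poly x)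
    (hp : Poly p) : Poly (fun a => bkX (A a) (x a) (p a)) := by
  have h1 : Poly (fun a => PS.eqr [] (PS.regName (PS.bitLen (A a)) (p a).2)
      (PS.kap (A a) (x a))) := by fun_prop
  exact Poly.tsubst (Poly.bkT hA) h1

@[fun_prop]
theorem Poly.bkC {x : α → Nm} {p : α → Nm × ℕ} (hx : Poly x) (hp : Poly p) :
    Poly (fun a => bkC (x a) (p a)) := by
  unfold PS.bkC
  fun_prop

@[fun_prop]
theorem Poly.bkU {A : α → Fm} {x : α → Nm} (hA : Poly A) (hx : Poly x) :
    Poly (fun a => bkU (A a) (x a)) := by
  have h1 : Poly (fun a => PS.anyr [] (PS.rgs (A a) (PS.varList (A a)).length)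
      (PS.kap (A a) (x a))) := by fun_prop
  exact Poly.tsubst (Poly.bkT hA) h1

theorem Poly.bkHc : Poly (fun _ : α => bkH) := PT.Poly.const _

@[fun_prop]
theorem Poly.bkP {A : α → Fm} {x : α → Nm} (hA : Poly A) (hx : Poly x) :
    Poly (fun a => bkP (A a) (x a)) := by
  unfold PS.bkP
  fun_prop

@[fun_prop]
theorem Poly.djC {H : α → Fm} {l : α → List (Fm × Fm)} (hH : Poly H) (hl : Poly l) :
    Poly (fun a => djC (H a) (l a)) := by
  have : Poly (fun a => imp (H a) (Fm.iff (PS.dj [] []) (PS.dj [] [])) ::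
      (PS.sp [] (l a)).reverse.map (fun p =>
        imp (H a) (Fm.iff (PS.dj [] ((p.2.1 :: p.2.2).map Prod.fst))
          (PS.dj [] ((p.2.1 :: p.2.2).map Prod.snd))))) := by
    fun_prop
  refine (show (fun a => PS.djC (H a) (l a)) = _ from ?_) ▸ this
  funext a
  exact djC_eq_sp _ _ _

@[fun_prop]
theorem Poly.bkL1 {A : α → Fm} {x : α → Nm} {p : α → Nm × ℕ} (hA : Poly A) (hx : Poly x)
    (hp : Poly p) : Poly (fun a => bkL1 (A a) (x a) (p a)) := by
  have h0 : Poly (fun _ : α => PS.bkH) := PT.Poly.const _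
  have h1 : Poly (fun a => Fm.iff (PS.bkX (A a) (x a) (p a)) (PS.bkC (x a) (p a))) := by
    fun_prop
  have h2 : Poly (fun q : α × Bool => Fm.and (PS.lit (p q.1).1 q.2) PS.bkH) := by
    have : Poly (fun _ : α × Bool => PS.bkH) := PT.Poly.const _
    fun_prop
  have h3 : Poly (fun q : α × Bool => PS.projL (Fm.and (PS.lit (p q.1).1 q.2) PS.bkH) ++
      PS.smL (Fm.and (PS.lit (p q.1).1 q.2) PS.bkH) [((p q.1).1, q.2)]
        (Fm.iff (PS.bkX (A q.1) (x q.1) (p q.1)) (PS.bkC (x q.1) (p q.1)))) := by
    have h4 : Poly (fun q : α × Bool =>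
        Fm.iff (PS.bkX (A q.1) (x q.1) (p q.1)) (PS.bkC (x q.1) (p q.1))) :=
      Poly.comp (f := fun a => Fm.iff (PS.bkX (A a) (x a) (p a)) (PS.bkC (x a) (p a)))
        (g := fun q : α × Bool => q.1) h1 (by fun_prop)
    exact Poly.append (Poly.projL h2) (Poly.smL h2 (by fun_prop) h4)
  unfold PS.bkL1
  refine Poly.append ?_ ?_
  · exact PT.Poly.flatMap (f := fun a b => PS.projL (Fm.and (PS.lit (p a).1 b) PS.bkH) ++
      PS.smL (Fm.and (PS.lit (p a).1 b) PS.bkH) [((p a).1, b)]
        (Fm.iff (PS.bkX (A a) (x a) (p a)) (PS.bkC (x a) (p a)))) (l := fun _ => [true, false])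
      h3 (PT.Poly.const _)
  · have h5 : Poly (fun a => imp PS.bkH
        (Fm.iff (PS.bkX (A a) (x a) (p a)) (PS.bkC (x a) (p a)))) := Poly.fmImp h0 h1
    fun_prop

@[fun_prop]
theorem Poly.bkL2 {A : α → Fm} {x : α → Nm} (hA : Poly A) (hx : Poly x) :
    Poly (fun a => bkL2 (A a) (x a)) := by
  have h0 : Poly (fun _ : α => PS.bkH) := PT.Poly.const _
  have h1 : Poly (fun a => (PS.varList (A a)).zipIdx.flatMap (PS.bkL1 (A a) (x a))) :=
    PT.Poly.flatMap (f := fun a p => PS.bkL1 (A a) (x a) p) (by fun_prop) (by fun_prop)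
  have h2 : Poly (fun a => PS.dj [] ((PS.bkP (A a) (x a)).map Prod.snd)) := by fun_prop
  have h3 : Poly (fun a => PS.smL PS.bkH [] (PS.dj [] ((PS.bkP (A a) (x a)).map Prod.snd))) :=
    Poly.smL h0 (PT.Poly.const _) h2
  have h4 : Poly (fun a => PS.djC PS.bkH (PS.bkP (A a) (x a))) := by fun_prop
  have hx' : Poly (fun a => Fm.var (x a)) := by fun_prop
  have hU : Poly (fun a => PS.bkU (A a) (x a)) := by fun_prop
  unfold PS.bkL2
  refine Poly.append h1 (Poly.append h4 (Poly.append h3 ?_))
  refine Poly.lcons (Poly.fmImp h0 (Poly.fmIff hx' h2)) (Poly.lcons (Poly.fmImp h0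
    (Poly.fmImp hU hx')) (Poly.lcons (Poly.fmImp h0 (Poly.fmImp hx' hU)) (Poly.lcons
    (Poly.fmImp h0 (Poly.fmIff hU hx')) (PT.Poly.const _))))

@[fun_prop]
theorem Poly.bkL {A : α → Fm} (hA : Poly A) : Poly (fun a => bkL (A a)) := by
  have h0 : Poly (fun _ : α => PS.bkH) := PT.Poly.const _
  have h1 : Poly (fun a => PS.replL PS.bkH (A a) (PS.bkU (A a)) var) :=
    Poly.replL (s := fun a => PS.bkU (A a)) (t := fun _ => var) h0 hA (by fun_prop)
      (by fun_prop)
  have h2 : Poly (fun a => (A a).subst (PS.bkU (A a))) :=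
    Poly.substP (s := fun a => PS.bkU (A a)) (by fun_prop) hA
  have h3 : Poly (fun a => (PS.varList (A a)).flatMap (PS.bkL2 (A a))) :=
    PT.Poly.flatMap (f := fun a x => PS.bkL2 (A a) x) (by fun_prop) (by fun_prop)
  unfold PS.bkL
  exact Poly.append h3 (Poly.append h1 (Poly.lcons (Poly.fmImp h0 h2) (Poly.lcons
    (Poly.fmImp h0 hA) (Poly.lcons hA (PT.Poly.const _)))))

end

/-! ### The theorem -/

/-- A proof with the permutation rule of a formula `A` with `n` variables gives an extended Frege
proof of `A` of bandwidth `O(n * log |π|)`. -/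
theorem perm_to_narrow {F : List Rule} (hF : IsFrege F) :
    ∃ (c : ℕ) (g : List Fm → List Fm), Poly g ∧ ∀ (A : Fm) (π : List Fm), PermProof F A π →
      NarrowProof F A (c * numVars [A] * Nat.log 2 (sz π)) (g π) := by
  obtain ⟨C, gA, hA1, hA2⟩ := sliceA hF
  obtain ⟨gN, hN1, hN2⟩ := subst_to_narrow hF
  obtain ⟨h, hh, hh'⟩ := robust hF (GG_sound hF)
  refine ⟨4 * C + 8, fun π => gN (h (cutAt (lastF π)
    (app (gA (π, (varList (lastF π)).length) ++ [(lastF π).subst (bkU (lastF π))])
      (bkL (lastF π))))), ?_, ?_⟩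
  · have h2 : Poly (fun π : List Fm => (lastF π).subst (PS.bkU (lastF π))) :=
      Poly.substP (s := fun π => PS.bkU (lastF π)) (by fun_prop) (by fun_prop)
    have h3 : Poly (fun π : List Fm => gA (π, (varList (lastF π)).length)) :=
      Poly.comp hA1 (by fun_prop)
    have h4 : Poly (fun π : List Fm => lastF π) := by fun_prop
    have h5 : Poly (fun π : List Fm => gA (π, (varList (lastF π)).length) ++
        [(lastF π).subst (bkU (lastF π))]) :=
      Poly.append h3 (Poly.lcons h2 (PT.Poly.const _))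
    exact Poly.comp hN1 (Poly.comp hh (Poly.cutAt h4 (Poly.app h5 (Poly.bkL h4))))
  · intro A π hπ
    have hl : lastF π = A := lastF_eq hπ.2
    simp only [hl]
    have hn : 0 < (varList A).length := varList_pos A
    obtain ⟨⟨s1, s2⟩, s3⟩ := hA2 A π (varList A).length hn hπ
    have hsub : A.subst (bkU A) = (slice A (varList A).length).subst (tsub (bkT A)) := by
      rw [slice_tS, Fm.subst_subst]
      rfl
    have hD1 : Deriv (GS (GG F)) (gA (π, (varList A).length)) :=
      s1.imp_step (fun σ B h => h.imp (fun h => ruleStep_GG h) id)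
    have hD2 : Deriv (GS (GG F)) (gA (π, (varList A).length) ++ [A.subst (bkU A)]) :=
      Deriv.snoc hD1 (Or.inr ⟨_, List.mem_of_getLast? s2, _, hsub⟩)
    obtain ⟨j, m⟩ := bkL_just (GG_rich F) (A := A)
      (π := gA (π, (varList A).length) ++ [A.subst (bkU A)]) (by simp)
    have hD := deriv_app (mono_GS (GG F)) hD2 (j.imp_step (fun _ _ h => Or.inl h))
    have hm : A ∈ app (gA (π, (varList A).length) ++ [A.subst (bkU A)]) (bkL A) :=
      mem_app.2 (Or.inr m)
    obtain ⟨d1, d2⟩ := deriv_cutAt hD hm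
    obtain ⟨f1, f2, f3⟩ := hh' SubstStep mono_substStep _ _ d1 d2
    refine (hN2 A _ ⟨f1, f2⟩).mono ?_
    have h2 : numVars (h (cutAt A (app (gA (π, (varList A).length) ++ [A.subst (bkU A)])
        (bkL A)))) ≤ (dd ((gA (π, (varList A).length)).flatMap nms) ++ bkV A).length := by
      refine numVars_le_length ?_
      intro C hC x hx
      obtain ⟨D, hD, hxD⟩ := f3 C hC x hx
      have hD' : D ∈ app (gA (π, (varList A).length) ++ [A.subst (bkU A)]) (bkL A) := by
        unfold cutAt at hD
        rcases List.mem_append.1 hD with hD | hD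
        · exact (List.takeWhile_prefix _).subset hD
        · rw [List.mem_singleton] at hD
          subst hD
          exact hm
      rcases mem_app.1 hD' with hD' | hD'
      · rcases List.mem_append.1 hD' with hD' | hD'
        · refine List.mem_append_left _ (mem_dd.2 (List.mem_flatMap.2 ⟨D, hD', ?_⟩))
          exact mem_nms.2 hxD
        · rw [List.mem_singleton] at hD'
          subst hD'
          exact List.mem_append_right _ (bkS_vars hxD)
      · exact List.mem_append_right _ (bkL_vars hD' hxD)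
    rw [List.length_append, ← numVars_eq, bkV_length] at h2
    have hne : π ≠ [] := by
      rintro rfl
      have := hπ.2
      simp at this
    have hs : 2 ≤ sz π := two_le_sz hne
    have hlog : 1 ≤ Nat.log 2 (sz π) := Nat.log_pos (by norm_num) hs
    have hnA : (varList A).length ≤ sz π := sl_numVars_le hπ
    have hc : bitLen A ≤ 2 * Nat.log 2 (sz π) := by
      unfold bitLen
      have := Nat.log_mono_right (b := 2) hnA
      omega
    have hnv : numVars [A] = (varList A).length := numVars_one A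
    rw [hnv]
    generalize numVars (h (cutAt A (app (gA (π, (varList A).length) ++ [A.subst (bkU A)])
      (bkL A)))) = N at h2 ⊢
    generalize numVars (gA (π, (varList A).length)) = N1 at h2 s3
    generalize (varList A).length = n at *
    generalize Nat.log 2 (sz π) = ℓ at *
    generalize bitLen A = c at *
    have e1 : C * n * (ℓ + 1) ≤ C * n * (2 * ℓ) := Nat.mul_le_mul_left _ (by omega)
    have e2 : n * c ≤ n * (2 * ℓ) := Nat.mul_le_mul_left _ hc
    have e3 : n ≤ n * ℓ := Nat.le_mul_of_pos_right _ hlog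
    have e4 : 1 ≤ n * ℓ := Nat.mul_pos hn hlog
    calc 2 * N ≤ 2 * (C * n * (2 * ℓ) + (n * ℓ + (n * (2 * ℓ) + n * ℓ))) := by omega
      _ = (4 * C + 8) * n * ℓ := by ring

end Pool.Agent.H.MP_0447ec_lc.PS
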