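import Pool.Agent.H.MP_0447ec_lc.OH.Eval

/-!
# A nonconstant hypothesis implies that one of its variables is true (or false)

Proofs. `cutE_just` by induction on `l` (write `cutE` recursively,
`cutE Z X (a :: l) = [four lines with hx l X] ++ cutE Z X l`; the equality with the form by `sp` as
in `splitL_eq_sp` / `sfx_eq_sp` in `LV/EnginePoly.lean`): from `imp (and (neg a) (hx l X)) Z`
and `imp (and a (hx l X)) Z` (by `Rich.refl`, `Rich.left`, `Rich.trans` with `imp a Z`) the line
`imp (hx l X) Z` by `Rich.cases`. `cutH_just`: with `H = hx l X`, `X = D.subst (tS f R A)`,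
`projL H` contains `imp H X` and `imp H (neg (anyr [] R (kap A x)))` for all variables `x` of `D`
(they are conjuncts of `H`); the latter line is `stl H (tS f R A x) (some f, var [])` for both
values of `f`; `evL_just` with `b = f` gives `imp H (neg X)` because `evc f D = false`; then
`Rich.absurd` gives `imp H Z`, and `cutE_just` the result.
-/

namespace Pool.Agent.H.MP_0447ec_lc.PS

open Fm Pool.Agent.H.MP_0447ec_lc.PT

/-- The formula `X` together with the negations of the formulas in `l`. -/
def hx (l : List Fm) (X : Fm) : Fm := l.foldr (fun a Y => Fm.and (neg a) Y) X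

/-- Lines that derive `imp X Z` from `imp (hx l X) Z` and `imp a Z` for all `a` in `l`. -/
def cutE (Z X : Fm) (l : List Fm) : List Fm :=
  (sp [] l).flatMap (fun p =>
    [imp (Fm.and p.2.1 (hx p.2.2 X)) (Fm.and p.2.1 (hx p.2.2 X)),
     imp (Fm.and p.2.1 (hx p.2.2 X)) p.2.1, imp (Fm.and p.2.1 (hx p.2.2 X)) Z,
     imp (hx p.2.2 X) Z])

theorem cut_sp_snd {β : Type} : ∀ (l pre pre' : List β),
    (sp pre l).map Prod.snd = (sp pre' l).map Prod.snd := by
  intro l
  induction l with
  | nil => intro pre pre'; simp [sp]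
  | cons a l ih =>
    intro pre pre'
    simp only [sp, List.map_cons]
    rw [ih (pre ++ [a]) (pre' ++ [a])]

theorem cut_sp_mem {β : Type} : ∀ (l pre : List β) (p : List β × β × List β), p ∈ sp pre l →
    p.2.1 ∈ l ∧ ∀ b ∈ p.2.2, b ∈ l := by
  intro l
  induction l with
  | nil => intro pre p hp; simp [sp] at hp
  | cons a l ih =>
    intro pre p hp
    rw [sp, List.mem_cons] at hp
    rcases hp with rfl | hp
    · exact ⟨by simp, fun b hb => List.mem_cons_of_mem _ hb⟩
    · obtain ⟨h1, h2⟩ := ih _ p hp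
      exact ⟨List.mem_cons_of_mem _ h1, fun b hb => List.mem_cons_of_mem _ (h2 b hb)⟩

theorem cut_hx_cons (a : Fm) (l : List Fm) (X : Fm) :
    hx (a :: l) X = Fm.and (neg a) (hx l X) := rfl

theorem cut_E_cons (Z X a : Fm) (l : List Fm) : cutE Z X (a :: l) =
    [imp (Fm.and a (hx l X)) (Fm.and a (hx l X)), imp (Fm.and a (hx l X)) a,
      imp (Fm.and a (hx l X)) Z, imp (hx l X) Z] ++ cutE Z X l := by
  have e : ∀ (L : List (List Fm × Fm × List Fm)), L.flatMap (fun p =>
      [imp (Fm.and p.2.1 (hx p.2.2 X)) (Fm.and p.2.1 (hx p.2.2 X)),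
       imp (Fm.and p.2.1 (hx p.2.2 X)) p.2.1, imp (Fm.and p.2.1 (hx p.2.2 X)) Z,
       imp (hx p.2.2 X) Z]) = (L.map Prod.snd).flatMap (fun p =>
      [imp (Fm.and p.1 (hx p.2 X)) (Fm.and p.1 (hx p.2 X)),
       imp (Fm.and p.1 (hx p.2 X)) p.1, imp (Fm.and p.1 (hx p.2 X)) Z,
       imp (hx p.2 X) Z]) := by
    intro L
    induction L with
    | nil => rfl
    | cons q L ih => rw [List.flatMap_cons, ih, List.map_cons, List.flatMap_cons]
  unfold cutE
  rw [sp, List.flatMap_cons, e (sp ([] ++ [a]) l), e (sp [] l),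
    cut_sp_snd l ([] ++ [a]) []]

theorem cutE_just {G : List Rule} (hG : Rich G) {Z X : Fm} {l : List Fm} {π : List Fm}
    (h1 : ∀ a ∈ l, imp a Z ∈ π) (h2 : imp (hx l X) Z ∈ π) :
    Just (RuleStep G) π (cutE Z X l) ∧ imp X Z ∈ π ++ cutE Z X l := by
  induction l generalizing π with
  | nil => exact ⟨trivial, List.mem_append_left _ h2⟩
  | cons a l ih =>
    rw [cut_E_cons]
    have h3 : imp a Z ∈ π := h1 a (by simp)
    rw [cut_hx_cons] at h2
    obtain ⟨j, m⟩ := ih (π := π ++ [imp (Fm.and a (hx l X)) (Fm.and a (hx l X)),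
      imp (Fm.and a (hx l X)) a, imp (Fm.and a (hx l X)) Z, imp (hx l X) Z])
      (fun b hb => List.mem_append_left _ (h1 b (List.mem_cons_of_mem _ hb)))
      (List.mem_append_right _ (by simp))
    refine ⟨Just.append ⟨Or.inr hG.refl, Or.inr ?_, Or.inr ?_, Or.inr ?_, trivial⟩ j, ?_⟩
    · exact hG.left (B := hx l X) (by simp)
    · exact hG.trans (A := a) (by simp) (by simp [h3])
    · exact hG.cases (A := a) (by simp) (by simp [h2])
    · rw [← List.append_assoc]
      exact m

/-- The statements that the variables of `D` are in the registers. -/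
def cutA (R : List (List Nm)) (A D : Fm) : List Fm :=
  (dd (nms D)).map (fun x => anyr [] R (kap A x))

/-- Lines that derive `imp (D.subst (tS f R A)) Z` from `imp (anyr [] R (kap A x)) Z` for all
variables `x` of `D`. -/
def cutH (f : Bool) (R : List (List Nm)) (A D Z : Fm) : List Fm :=
  projL (hx (cutA R A D) (D.subst (tS f R A))) ++
  (evL (hx (cutA R A D) (D.subst (tS f R A))) (tS f R A) f D ++
  ([imp (hx (cutA R A D) (D.subst (tS f R A))) Z] ++
  (cutE Z (D.subst (tS f R A)) (cutA R A D) ++ [imp (D.subst (tS f R A)) Z])))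

theorem cutH_just {G : List Rule} (hG : Rich G) {f : Bool} {R : List (List Nm)} {A D Z : Fm}
    {π : List Fm} (hD : ¬ D.Eval (fun _ => f = true))
    (h : ∀ x ∈ D.vars, imp (anyr [] R (kap A x)) Z ∈ π) :
    Just (RuleStep G) π (cutH f R A D Z) ∧ imp (D.subst (tS f R A)) Z ∈ cutH f R A D Z := by
  have hself : ∀ l : List Fm, D.subst (tS f R A) ∈ ands (hx l (D.subst (tS f R A))) := by
    intro l
    induction l with
    | nil => exact self_mem_ands _
    | cons a l ih =>
      rw [cut_hx_cons, ands]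
      exact List.mem_cons_of_mem _ (List.mem_append_right _ ih)
  have hneg : ∀ (l : List Fm) (a : Fm), a ∈ l → neg a ∈ ands (hx l (D.subst (tS f R A))) := by
    intro l
    induction l with
    | nil => intro a ha; simp at ha
    | cons b l ih =>
      intro a ha
      rw [cut_hx_cons, ands]
      rcases List.mem_cons.1 ha with rfl | ha
      · exact List.mem_cons_of_mem _ (List.mem_append_left _ (self_mem_ands _))
      · exact List.mem_cons_of_mem _ (List.mem_append_right _ (ih a ha))
  obtain ⟨X, hX⟩ : ∃ X, X = D.subst (tS f R A) := ⟨_, rfl⟩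
  obtain ⟨H, hH⟩ : ∃ H, H = hx (cutA R A D) (D.subst (tS f R A)) := ⟨_, rfl⟩
  have hcut : cutH f R A D Z = projL H ++ (evL H (tS f R A) f D ++ ([imp H Z] ++
      (cutE Z X (cutA R A D) ++ [imp X Z]))) := by
    rw [hH, hX]
    rfl
  rw [hcut, ← hX]
  have m1 : imp H X ∈ projL H := by
    rw [hH, hX]
    exact mem_projL (hself _)
  have m2 : ∀ x ∈ D.vars, imp H (neg (anyr [] R (kap A x))) ∈ projL H := by
    intro x hx1
    rw [hH]
    refine mem_projL (hneg _ _ ?_)
    exact List.mem_map_of_mem (f := fun x => anyr [] R (kap A x)) (mem_dd.2 (mem_nms.2 hx1))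
  have m3 : ∀ x ∈ D.vars, stl H (tS f R A x) (some f, var []) ∈ projL H := by
    intro x hx1
    have := m2 x hx1
    cases f
    · exact this
    · exact this
  have j1 : Just (RuleStep G) π (projL H) := projL_just hG H π
  obtain ⟨j2, m4⟩ := evL_just hG H (tS f R A) f D (π ++ projL H)
    (fun x hx1 => List.mem_append_right _ (m3 x hx1))
  have he : evc f D = false := by
    cases hc : evc f D with
    | false => rfl
    | true => exact absurd ((evc_iff f D).1 hc) hD
  rw [he] at m4
  have m5 : imp H (neg X) ∈ evL H (tS f R A) f D := by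
    rw [hX]
    exact m4
  obtain ⟨j3, m6⟩ := cutE_just hG (Z := Z) (X := X) (l := cutA R A D)
    (π := π ++ projL H ++ evL H (tS f R A) f D ++ [imp H Z])
    (by
      intro a ha
      obtain ⟨x, hx1, rfl⟩ := List.mem_map.1 ha
      have := h x (mem_nms.1 (mem_dd.1 hx1))
      simp only [List.append_assoc]
      exact List.mem_append_left _ this)
    (by
      refine List.mem_append_right _ ?_
      rw [hX, ← hH]
      simp)
  refine ⟨?_, by simp⟩
  refine Just.append j1 (Just.append j2 (Just.append ⟨Or.inr ?_, trivial⟩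
    (Just.append j3 ⟨Or.inl m6, trivial⟩)))
  exact hG.absurd (A := X) (List.mem_append_left _ (List.mem_append_right _ m1))
    (List.mem_append_right _ m5)

theorem cut_ands_vars {H X : Fm} (h : X ∈ ands H) {x : Nm} (hx1 : x ∈ X.vars) : x ∈ H.vars :=
  vars_of_mem_subs ((ands_sublist H).subset h) x hx1

theorem cut_hx_vars {l : List Fm} {X : Fm} {x : Nm} (h : x ∈ (hx l X).vars) :
    (∃ a ∈ l, x ∈ a.vars) ∨ x ∈ X.vars := by
  induction l with
  | nil => exact Or.inr h
  | cons a l ih =>
    rw [cut_hx_cons] at h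
    rcases h with h | h
    · exact Or.inl ⟨a, by simp, h⟩
    · rcases ih h with ⟨b, hb, hb'⟩ | h1
      · exact Or.inl ⟨b, List.mem_cons_of_mem _ hb, hb'⟩
      · exact Or.inr h1

theorem cutH_vars {f : Bool} {R : List (List Nm)} {A D Z C : Fm} (hC : C ∈ cutH f R A D Z)
    {x : Nm} (hx' : x ∈ C.vars) : x ∈ Z.vars ∨ x = [] ∨ x ∈ R.flatten := by
  have hA : ∀ a ∈ cutA R A D, x ∈ a.vars → x = [] ∨ x ∈ R.flatten := by
    intro a ha hxa
    obtain ⟨y, -, rfl⟩ := List.mem_map.1 ha
    exact vars_anyr hxa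
  have hX : x ∈ (D.subst (tS f R A)).vars → x = [] ∨ x ∈ R.flatten := by
    intro h1
    obtain ⟨w, -, hw⟩ := vars_subst h1
    exact vars_tS hw
  have hsub : ∀ l : List Fm, (∀ b ∈ l, b ∈ cutA R A D) →
      x ∈ (hx l (D.subst (tS f R A))).vars → x = [] ∨ x ∈ R.flatten := by
    intro l hl h1
    rcases cut_hx_vars h1 with ⟨a, ha, hxa⟩ | h1
    · exact hA a (hl a ha) hxa
    · exact hX h1
  have hH := hsub (cutA R A D) (fun b hb => hb)
  unfold cutH at hC
  simp only [List.mem_append, List.mem_singleton] at hC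
  rcases hC with hC | hC | hC | hC | hC
  · obtain ⟨Y, hY, rfl⟩ := List.mem_map.1 hC
    rcases hx' with h | h
    · exact Or.inr (hH h)
    · exact Or.inr (hH (cut_ands_vars hY h))
  · rcases evL_vars hC hx' with h | ⟨y, -, h⟩
    · exact Or.inr (hH h)
    · exact Or.inr (vars_tS h)
  · subst hC
    rcases hx' with h | h
    · exact Or.inr (hH h)
    · exact Or.inl h
  · unfold cutE at hC
    obtain ⟨p, hp, hC⟩ := List.mem_flatMap.1 hC
    obtain ⟨hp1, hp2⟩ := cut_sp_mem _ _ p hp
    have q1 := hA p.2.1 hp1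
    have q2 := hsub p.2.2 hp2
    simp only [List.mem_cons, List.not_mem_nil, or_false] at hC
    rcases hC with rfl | rfl | rfl | rfl
    · rcases hx' with (h | h) | (h | h)
      · exact Or.inr (q1 h)
      · exact Or.inr (q2 h)
      · exact Or.inr (q1 h)
      · exact Or.inr (q2 h)
    · rcases hx' with (h | h) | h
      · exact Or.inr (q1 h)
      · exact Or.inr (q2 h)
      · exact Or.inr (q1 h)
    · rcases hx' with (h | h) | h
      · exact Or.inr (q1 h)
      · exact Or.inr (q2 h)
      · exact Or.inl h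
    · rcases hx' with h | h
      · exact Or.inr (q2 h)
      · exact Or.inl h
  · subst hC
    rcases hx' with h | h
    · exact Or.inr (hX h)
    · exact Or.inl h

section

variable {α : Type} [Enc α]

theorem cut_sz_hx (l : List Fm) (X : Fm) : sz (hx l X) ≤ sz X + 14 * sz l := by
  induction l with
  | nil =>
    have : hx [] X = X := rfl
    rw [this]
    omega
  | cons a l ih =>
    rw [cut_hx_cons, sz_and, sz_neg, sz_lcons]
    have := PT.sz_pos a
    omega

@[fun_prop]
theorem Poly.hx {l : α → List Fm} {X : α → Fm} (hl : Poly l) (hX : Poly X) :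
    Poly (fun a => hx (l a) (X a)) := by
  unfold PS.hx
  refine Poly.foldr (f := fun p : α × Fm × Fm => Fm.and (neg p.2.2) p.2.1)
    (l := l) (s0 := X) (B := fun a => sz (X a) + 14 * sz (l a))
    (by fun_prop) hl hX
    (hX.sz_le.add ((PBdd.const 14).mul hl.sz_le)) ?_
  intro a l₁ l₂ h
  have h2 : sz l₂ ≤ sz (l a) := by
    rw [h]; exact sz_sublist_le (List.sublist_append_right _ _)
  have h3 := cut_sz_hx l₂ (X a)
  have h4 : l₂.foldr (fun b s => (fun p : α × Fm × Fm => Fm.and (neg p.2.2) p.2.1) (a, s, b))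
      (X a) = PS.hx l₂ (X a) := rfl
  rw [h4]
  omega

@[fun_prop]
theorem cut_polyA {R : α → List (List Nm)} {A D : α → Fm}
    (hR : Poly R) (hA : Poly A) (hD : Poly D) :
    Poly (fun a => cutA (R a) (A a) (D a)) := by
  unfold PS.cutA
  fun_prop

@[fun_prop]
theorem cut_polyE {Z X : α → Fm} {l : α → List Fm}
    (hZ : Poly Z) (hX : Poly X) (hl : Poly l) :
    Poly (fun a => cutE (Z a) (X a) (l a)) := by
  unfold PS.cutE
  fun_prop

@[fun_prop]
theorem Poly.cutH {f : α → Bool} {R : α → List (List Nm)} {A D Z : α → Fm} (hf : Poly f)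
    (hR : Poly R) (hA : Poly A) (hD : Poly D) (hZ : Poly Z) :
    Poly (fun a => cutH (f a) (R a) (A a) (D a) (Z a)) := by
  unfold PS.cutH
  have hev : Poly (fun a => PS.evL (PS.hx (PS.cutA (R a) (A a) (D a))
      ((D a).subst (PS.tS (f a) (R a) (A a)))) (PS.tS (f a) (R a) (A a)) (f a) (D a)) :=
    Poly.evL (t := fun a => PS.tS (f a) (R a) (A a)) (by fun_prop) (by fun_prop) hf hD
  refine Poly.append (by fun_prop) (Poly.append hev ?_)
  fun_prop

end

end Pool.Agent.H.MP_0447ec_lc.PS
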