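import Pool.Agent.H.MP_0447ec_lc.OH.Defs

/-!
# The value of a formula under a constant assignment, inside a proof

Proofs. `evL_just`: like `smL_just` in `LV/Engine.lean` (copy its proof): the lines are
`imp H (X.subst t)` or `imp H (neg (X.subst t))` for all subformulas `X` of `D`, the shortest
first; a binary connective by `Rich.st2` with `p = (some _, var [])`, `q = (some _, var [])`
(`smB n p q = (some _, var [])`), a negation by `Rich.stN`. `evL_vars`: from `vars_of_mem_subs`
and `vars_subst`. `Poly.evL`: as `Poly.replL` and `Poly.smL` in `LV/EnginePoly.lean` (`Poly.ofFold`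
for `evc`, the size bound is `sz_bool_le`).
-/

namespace Pool.Agent.H.MP_0447ec_lc.PS

open Fm Pool.Agent.H.MP_0447ec_lc.PT

/-- The value of `D` when all variables have the value `b`. -/
def evc (b : Bool) (D : Fm) : Bool :=
  fmFold (fun _ => b) (fun p => !p)
    (fun n p q => if n = 2 then p && q else if n = 3 then p || q else (!p) || q) D

theorem ev_var (b : Bool) (w : Nm) : evc b (var w) = b := rfl
theorem ev_neg (b : Bool) (A : Fm) : evc b (neg A) = !(evc b A) := rfl
theorem ev_and (b : Bool) (A B : Fm) : evc b (Fm.and A B) = (evc b A && evc b B) := rfl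
theorem ev_or (b : Bool) (A B : Fm) : evc b (Fm.or A B) = (evc b A || evc b B) := rfl
theorem ev_imp (b : Bool) (A B : Fm) : evc b (imp A B) = (!(evc b A) || evc b B) := rfl

theorem evc_iff (b : Bool) (D : Fm) : evc b D = true ↔ D.Eval (fun _ => b = true) := by
  induction D with
  | var w => exact Iff.rfl
  | neg A ih =>
    rw [ev_neg]
    simp only [Fm.Eval, ← ih]
    cases evc b A <;> simp
  | and A B ih1 ih2 =>
    rw [ev_and]
    simp only [Fm.Eval, ← ih1, ← ih2]
    cases evc b A <;> cases evc b B <;> simp
  | or A B ih1 ih2 =>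
    rw [ev_or]
    simp only [Fm.Eval, ← ih1, ← ih2]
    cases evc b A <;> cases evc b B <;> simp
  | imp A B ih1 ih2 =>
    rw [ev_imp]
    simp only [Fm.Eval, ← ih1, ← ih2]
    cases evc b A <;> cases evc b B <;> simp

theorem nonConst_iff (D : Fm) : NonConst D ↔ (evc true D = false ∧ evc false D = false) := by
  have h1 : evc true D = true ↔ D.Eval (fun _ => True) := by
    have := evc_iff true D
    simpa using this
  have h2 : evc false D = true ↔ D.Eval (fun _ => False) := by
    have := evc_iff false D
    simpa using this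
  unfold NonConst
  rw [← h1, ← h2, Bool.not_eq_true, Bool.not_eq_true]

/-- The values of the subformulas of `D`, when the formulas `t x` have the value `b`. -/
def evL (H : Fm) (t : Nm → Fm) (b : Bool) (D : Fm) : List Fm :=
  (subs D).reverse.map (fun X => stl H (X.subst t) (some (evc b X), var []))

theorem evL_just {G : List Rule} (hG : Rich G) (H : Fm) (t : Nm → Fm) (b : Bool) (D : Fm) :
    ∀ π : List Fm, (∀ x ∈ D.vars, stl H (t x) (some b, var []) ∈ π) →
      Just (RuleStep G) π (evL H t b D) ∧
      stl H (D.subst t) (some (evc b D), var []) ∈ evL H t b D := by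
  have bin : ∀ (n : ℕ), (n = 2 ∨ n = 3 ∨ n = 4) → ∀ (A B : Fm) (c : Bool) (π : List Fm),
      (∀ π : List Fm, (∀ x ∈ A.vars, stl H (t x) (some b, var []) ∈ π) →
        Just (RuleStep G) π (evL H t b A) ∧
          stl H (A.subst t) (some (evc b A), var []) ∈ evL H t b A) →
      (∀ π : List Fm, (∀ x ∈ B.vars, stl H (t x) (some b, var []) ∈ π) →
        Just (RuleStep G) π (evL H t b B) ∧
          stl H (B.subst t) (some (evc b B), var []) ∈ evL H t b B) →
      (∀ x ∈ A.vars ∪ B.vars, stl H (t x) (some b, var []) ∈ π) →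
      (smB n (some (evc b A), var []) (some (evc b B), var []) = (some c, var [])) →
      Just (RuleStep G) π (evL H t b B ++ evL H t b A ++
        [stl H (conn n (A.subst t) (B.subst t)) (some c, var [])]) := by
    intro n hn A B c π ihA ihB hπ e
    obtain ⟨j2, m2⟩ := ihB π (fun x hx => hπ x (Or.inr hx))
    obtain ⟨j1, m1⟩ := ihA (π ++ evL H t b B)
      (fun x hx => List.mem_append_left _ (hπ x (Or.inl hx)))
    refine Just.append (Just.append j2 j1) ⟨Or.inr ?_, trivial⟩
    rw [← e]
    refine hG.st2 n hn _ _ ?_ ?_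
    · exact List.mem_append_right _ (List.mem_append_right _ m1)
    · exact List.mem_append_right _ (List.mem_append_left _ m2)
  induction D with
  | var w =>
    intro π hπ
    exact ⟨⟨Or.inl (hπ w rfl), trivial⟩, by simp [evL, subs]⟩
  | neg A ih =>
    intro π hπ
    obtain ⟨j, m⟩ := ih π hπ
    have e : evL H t b (neg A) = evL H t b A ++
        [stl H (neg (A.subst t)) (some (!(evc b A)), var [])] := by
      simp [evL, subs, Fm.subst, ev_neg]
    rw [e]
    refine ⟨Just.append j ⟨?_, trivial⟩, by simp [Fm.subst, ev_neg]⟩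
    exact (hG.stN _ (List.mem_append_right _ m)).symm
  | and A B ihA ihB =>
    intro π hπ
    have e : evL H t b (Fm.and A B) = evL H t b B ++ evL H t b A ++
        [stl H (conn 2 (A.subst t) (B.subst t)) (some (evc b A && evc b B), var [])] := by
      simp [evL, subs, Fm.subst, conn_two, ev_and]
    rw [e]
    refine ⟨bin 2 (by simp) A B _ π ihA ihB hπ ?_, by simp [conn_two, Fm.subst, ev_and]⟩
    cases evc b A <;> cases evc b B <;> rfl
  | or A B ihA ihB =>
    intro π hπ
    have e : evL H t b (Fm.or A B) = evL H t b B ++ evL H t b A ++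
        [stl H (conn 3 (A.subst t) (B.subst t)) (some (evc b A || evc b B), var [])] := by
      simp [evL, subs, Fm.subst, conn_three, ev_or]
    rw [e]
    refine ⟨bin 3 (by simp) A B _ π ihA ihB hπ ?_, by simp [conn_three, Fm.subst, ev_or]⟩
    cases evc b A <;> cases evc b B <;> rfl
  | imp A B ihA ihB =>
    intro π hπ
    have e : evL H t b (imp A B) = evL H t b B ++ evL H t b A ++
        [stl H (conn 4 (A.subst t) (B.subst t)) (some (!(evc b A) || evc b B), var [])] := by
      simp [evL, subs, Fm.subst, conn_four, ev_imp]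
    rw [e]
    refine ⟨bin 4 (by simp) A B _ π ihA ihB hπ ?_, by simp [conn_four, Fm.subst, ev_imp]⟩
    cases evc b A <;> cases evc b B <;> rfl

theorem evL_vars {H D C : Fm} {t : Nm → Fm} {b : Bool} (hC : C ∈ evL H t b D) {x : Nm}
    (hx : x ∈ C.vars) : x ∈ H.vars ∨ ∃ y ∈ D.vars, x ∈ (t y).vars := by
  unfold evL at hC
  obtain ⟨X, hX, rfl⟩ := List.mem_map.1 hC
  rw [List.mem_reverse] at hX
  have h1 : x ∈ H.vars ∨ x ∈ (X.subst t).vars := by
    cases hb : evc b X
    · rw [hb] at hx
      exact hx
    · rw [hb] at hx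
      exact hx
  rcases h1 with h1 | h1
  · exact Or.inl h1
  · obtain ⟨y, hy, hxy⟩ := vars_subst h1
    exact Or.inr ⟨y, vars_of_mem_subs hX y hy, hxy⟩

section

variable {α : Type} [Enc α]

@[fun_prop]
theorem Poly.evc {b : α → Bool} {D : α → Fm} (hb : Poly b) (hD : Poly D) :
    Poly (fun a => evc (b a) (D a)) := by
  unfold PS.evc
  refine Poly.ofFold (gv := fun a _ => b a) (gn := fun _ p => !p)
    (g2 := fun _ n p q => if n = 2 then p && q else if n = 3 then p || q else (!p) || q)
    (B := fun _ => 3) hD (by fun_prop) (by fun_prop) (by fun_prop) (PBdd.const 3)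
    (fun _ _ _ => sz_bool_le _)

theorem Poly.evL {H D : α → Fm} {t : α → Nm → Fm} {b : α → Bool} (hH : Poly H)
    (ht : Poly (fun p : α × Nm => t p.1 p.2)) (hb : Poly b) (hD : Poly D) :
    Poly (fun a => evL (H a) (t a) (b a) (D a)) := by
  unfold PS.evL
  refine PT.Poly.map ?_ (by fun_prop)
  have h1 : Poly (fun p : α × Fm => p.2.subst (t p.1)) := by
    refine Poly.substP (s := fun p : α × Fm => t p.1) (G := fun p : α × Fm => p.2) ?_
      (by fun_prop)
    exact Poly.comp (f := fun p : α × Nm => t p.1 p.2)
      (g := fun p : (α × Fm) × Nm => (p.1.1, p.2)) ht (by fun_prop)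
  fun_prop

end

end Pool.Agent.H.MP_0447ec_lc.PS
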