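import Pool.Agent.H.MP_0447ec_lc.OH.Php

/-!
# The slices with fewer registers than blocks
-/

namespace Pool.Agent.H.MP_0447ec_lc.PS

open Fm Pool.Agent.H.MP_0447ec_lc.PT

/-- The lines that derive the substituted formula `imps pre (imps Gs B)`. -/
def lowL (f : Bool) (J : ℕ) (pre Gs : List Fm) (B A : Fm) : List Fm :=
  phP f A Gs J ++
  (sfx ((pre ++ Gs.take (Gs.length - 1 - J)).map (fun H => H.subst (tS f (rgs A J) A)))).map
    (fun Γ => imps Γ (imps ((Gs.drop (Gs.length - 1 - J)).map
      (fun H => H.subst (tS f (rgs A J) A))) (B.subst (tS f (rgs A J) A))))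

theorem imps_subst (Hs : List Fm) (B : Fm) (s : Nm → Fm) :
    (imps Hs B).subst s = imps (Hs.map (fun H => H.subst s)) (B.subst s) := by
  induction Hs with
  | nil => rfl
  | cons H Hs ih => rw [imps_cons, List.map_cons, imps_cons, ← ih]; rfl

/-- From `X` follow all `imps Γ X`. -/
theorem low_sfx {G : List Rule} (hG : Rich G) {X : Fm} : ∀ (L : List Fm) (π : List Fm),
    (X ∈ π ∨ GS G π X) →
    Just (GS G) π ((sfx L).map (fun Γ => imps Γ X)) ∧ imps L X ∈ (sfx L).map (fun Γ => imps Γ X) := by
  intro L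
  induction L with
  | nil =>
    intro π h
    exact ⟨⟨h, trivial⟩, by simp [sfx]⟩
  | cons A L ih =>
    intro π h
    obtain ⟨j, m⟩ := ih π h
    simp only [sfx, List.map_append, List.map_cons, List.map_nil]
    refine ⟨Just.append j ⟨Or.inr (Or.inl ?_), trivial⟩, by simp⟩
    rw [imps_cons]
    exact hG.weaken (List.mem_append_right _ m)

theorem lowL_just {G : List Rule} (hG : Rich G) {f : Bool} {J : ℕ} {pre Gs : List Fm} {B A : Fm}
    (hGs : Grp f Gs) (hJ : J < Gs.length) (hA : A = imps pre (imps Gs B)) :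
    Just (GS G) [] (lowL f J pre Gs B A) ∧
      A.subst (tS f (rgs A J) A) ∈ lowL f J pre Gs B A := by
  have hv : ∀ H ∈ Gs, ∀ x ∈ H.vars, x ∈ A.vars := by
    intro H hH x hx
    rw [hA, vars_imps, vars_imps]
    exact Or.inr (Or.inl ⟨H, hH, hx⟩)
  obtain ⟨j1, m1⟩ := phP_just hG hGs hv hJ
  obtain ⟨j2, m2⟩ := low_sfx hG (X := imps ((Gs.drop (Gs.length - 1 - J)).map
      (fun H => H.subst (tS f (rgs A J) A))) (B.subst (tS f (rgs A J) A)))
    ((pre ++ Gs.take (Gs.length - 1 - J)).map (fun H => H.subst (tS f (rgs A J) A)))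
    ([] ++ phP f A Gs J) (Or.inr (Or.inr ⟨_, by simpa using m1, _,
      (ZZ_pz f A (Gs.drop (Gs.length - 1 - J)) J (B.subst (tS f (rgs A J) A))).symm⟩))
  refine ⟨Just.append j1 j2, List.mem_append_right _ ?_⟩
  have e : A.subst (tS f (rgs A J) A) =
      imps ((pre ++ Gs.take (Gs.length - 1 - J)).map (fun H => H.subst (tS f (rgs A J) A)))
        (imps ((Gs.drop (Gs.length - 1 - J)).map (fun H => H.subst (tS f (rgs A J) A)))
          (B.subst (tS f (rgs A J) A))) := by
    have e1 : A = imps (pre ++ Gs.take (Gs.length - 1 - J))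
        (imps (Gs.drop (Gs.length - 1 - J)) B) := by
      rw [imps_append, ← imps_append (Gs.take _), List.take_append_drop]
      exact hA
    have e2 : A.subst (tS f (rgs A J) A) = (imps (pre ++ Gs.take (Gs.length - 1 - J))
        (imps (Gs.drop (Gs.length - 1 - J)) B)).subst (tS f (rgs A J) A) := by
      rw [← e1]
    rw [e2, imps_subst, imps_subst]
  rw [e]
  exact m2

theorem lowL_vars {f : Bool} {J : ℕ} {pre Gs : List Fm} {B A C : Fm}
    (hC : C ∈ lowL f J pre Gs B A) {y : Nm} (hy : y ∈ C.vars) :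
    y = pz ∨ y = [] ∨ y ∈ (rgs A J).flatten := by
  unfold lowL at hC
  rcases List.mem_append.1 hC with hC | hC
  · exact phP_vars hC hy
  · obtain ⟨Γ, hΓ, rfl⟩ := List.mem_map.1 hC
    right
    rw [vars_imps, vars_imps] at hy
    rcases hy with ⟨H, hH, hy⟩ | ⟨H, hH, hy⟩ | hy
    · obtain ⟨D, -, rfl⟩ := List.mem_map.1 (mem_sfx hΓ H hH)
      exact vars_tSsubst hy
    · obtain ⟨D, -, rfl⟩ := List.mem_map.1 hH
      exact vars_tSsubst hy
    · exact vars_tSsubst hy

/-- If there are fewer registers than formulas in `Gs`, the slice (`f = false`) of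
`imps pre (imps Gs B)`, or of the same formula with negated variables (`f = true`), has a
substitution Frege proof with few variables. -/
theorem low_main {F : List Rule} (hF : IsFrege F) :
    ∃ g : (Bool × ℕ) × List Fm × List Fm × Fm → List Fm, Poly g ∧
    ∀ (f : Bool) (J : ℕ) (pre Gs : List Fm) (B A : Fm), Grp f Gs → J < Gs.length →
      A = imps pre (imps Gs B) →
      SubstProof F (A.subst (tS f (rgs A J) A)) (g ((f, J), pre, Gs, B)) ∧
      numVars (g ((f, J), pre, Gs, B)) ≤ J * bitLen A + 2 := by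
  obtain ⟨h, hh, hh'⟩ := robust hF (GG_sound hF)
  refine ⟨fun x => h (cutAt ((imps x.2.1 (imps x.2.2.1 x.2.2.2)).subst
    (tS x.1.1 (rgs (imps x.2.1 (imps x.2.2.1 x.2.2.2)) x.1.2)
      (imps x.2.1 (imps x.2.2.1 x.2.2.2))))
    (app [] (lowL x.1.1 x.1.2 x.2.1 x.2.2.1 x.2.2.2 (imps x.2.1 (imps x.2.2.1 x.2.2.2))))),
    ?_, ?_⟩
  · unfold lowL
    fun_prop
  · intro f J pre Gs B A hGs hJ hA
    simp only
    rw [← hA]
    obtain ⟨j, m⟩ := lowL_just (GG_rich F) hGs hJ hA
    have hD := deriv_app (mono_GS (GG F)) Deriv.nil j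
    have hm : A.subst (tS f (rgs A J) A) ∈ app [] (lowL f J pre Gs B A) := mem_app.2 (Or.inr m)
    obtain ⟨d1, d2⟩ := deriv_cutAt hD hm
    obtain ⟨f1, f2, f3⟩ := hh' SubstStep mono_substStep _ _ d1 d2
    refine ⟨⟨f1, f2⟩, ?_⟩
    have h2 : numVars (h (cutAt (A.subst (tS f (rgs A J) A)) (app [] (lowL f J pre Gs B A)))) ≤
        ((rgs A J).flatten ++ [[], pz]).length := by
      refine numVars_le_length ?_
      intro C hC x hx
      obtain ⟨D, hD, hxD⟩ := f3 C hC x hx
      have hD' : D ∈ lowL f J pre Gs B A := by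
        unfold cutAt at hD
        rcases List.mem_append.1 hD with hD | hD
        · have := (List.takeWhile_prefix _).subset hD
          simpa using mem_app.1 this
        · rw [List.mem_singleton] at hD
          subst hD
          exact m
      rcases lowL_vars hD' hxD with h | h | h
      · exact List.mem_append_right _ (by simp [h])
      · exact List.mem_append_right _ (by simp [h])
      · exact List.mem_append_left _ h
    have h3 : (rgs A J).flatten.length = J * bitLen A := by
      unfold rgs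
      rw [List.length_flatten, List.map_map]
      have h4 : (List.length ∘ regName (bitLen A)) = fun _ => bitLen A := by
        funext J
        exact regName_length _ _
      rw [h4]
      simp
    rw [List.length_append, h3] at h2
    simpa using h2

end Pool.Agent.H.MP_0447ec_lc.PS
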