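import Pool.Agent.H.MP_0447ec_lc.LV.StDefs

/-!
# Consecutive hypotheses with disjoint sets of variables
-/

namespace Pool.Agent.H.MP_0447ec_lc.PS

/-- Some `K` consecutive members of the list `Gs` have pairwise disjoint sets of variables and are
all false at the assignment that gives the value `c` to all variables. -/
def GoodRun (c : Bool) (Gs : List Fm) (K : ℕ) : Prop :=
  ∃ pre Hs post : List Fm, Gs = pre ++ Hs ++ post ∧ Hs.length = K ∧
    Hs.Pairwise (fun H H' => Disjoint H.vars H'.vars) ∧ ∀ H ∈ Hs, ¬ H.Eval (fun _ => c = true)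

end Pool.Agent.H.MP_0447ec_lc.PS
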