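import Pool.Agent.H.MP_0447ec_lc.OH.Top
import Pool.Agent.H.MP_0447ec_lc.OH.Run
import Pool.Agent.H.MP_0447ec_lc.OH.Back

/-!
# The permutation rule and extended Frege on formulas with nonconstant hypotheses
-/

namespace Pool.Agent.H.MP_0447ec_lc.PS.NonconstantHypotheses

open Pool.Agent.H.MP_0447ec_lc.PS Pool.Agent.H.MP_0447ec_lc.PT

theorem grp_of_goodRun {c : Bool} {Gs : List Fm} {K : ℕ} (h : GoodRun c Gs K) (B : Fm) :
    ∃ (pre Hs : List Fm) (B' : Fm), Gs.foldr Fm.imp B = imps pre (imps Hs B') ∧
      Hs.length = K ∧ Grp c Hs := by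
  obtain ⟨pre, Hs, post, h1, h2, h3, h4⟩ := h
  refine ⟨pre, Hs, imps post B, ?_, h2, h3.imp (fun h => Set.disjoint_left.1 h), h4⟩
  rw [h1, ← imps_append, ← imps_append, List.append_assoc]
  rfl

/-- Let `F` be a Frege system. (1) Some function `f` computable in polynomial time (with `M` in
unary) maps every extended Frege proof `π` of every formula `A = G₁ → (G₂ → … → (G_r → B))` and
every `M` with `K * log₂ M ≥ b` to a proof of `A` in `F` with the permutation rule, where `b` is
the bandwidth of `π`, some `K` consecutive `G_i` have pairwise disjoint sets of variables and are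
false when all variables are false, and some `K` consecutive `G_i` have pairwise disjoint sets of
variables and are false when all variables are true. (2) Conversely, some function `g` computable
in polynomial time maps every proof `π` in `F` with the permutation rule of every formula `A` to an
extended Frege proof of `A` of bandwidth at most `c * n * log₂ |π|`, where `n` is the number of
variables of `A` and `c` is a constant. -/
theorem result (F : List Rule) (hF : IsFrege F) :
    (∃ f : List Fm × ℕ → List Fm,
      Nonempty (Turing.TM2ComputableInPolyTime codeProofNat codeProof f) ∧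
      ∀ (Gs : List Fm) (B : Fm) (K M : ℕ) (π : List Fm), GoodRun false Gs K → GoodRun true Gs K →
        ExtProof F (Gs.foldr Fm.imp B) π →
        bandwidth F (Gs.foldr Fm.imp B) π ≤ K * Nat.log 2 M →
        PermProof F (Gs.foldr Fm.imp B) (f (π, M))) ∧
    ∃ (c : ℕ) (g : List Fm → List Fm),
      Nonempty (Turing.TM2ComputableInPolyTime codeProof codeProof g) ∧
      ∀ (A : Fm) (π : List Fm), PermProof F A π → ExtProof F A (g π) ∧
        bandwidth F A (g π) ≤ c * numVars [A] * Nat.log 2 (codeProof π).length := by
  obtain ⟨f, h1, h2⟩ := groups_main hF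
  obtain ⟨c, g, h3, h4⟩ := perm_to_narrow hF
  refine ⟨⟨f, (tm2_iff_poly codeProofNat_eq codeProof_eq f).2 h1, ?_⟩, c, g,
    (tm2_iff_poly codeProof_eq codeProof_eq g).2 h3, ?_⟩
  · intro Gs B K M π g1 g2 hπ hb
    obtain ⟨pre, Ps, B1, e1, l1, q1⟩ := grp_of_goodRun g1 B
    obtain ⟨pre', Ns, B2, e2, l2, q2⟩ := grp_of_goodRun g2 B
    refine h2 _ pre Ps B1 pre' Ns B2 _ M π e1 q1 e2 q2 (narrow_bandwidth hπ) (Or.inl ?_)
    rw [l1, l2, min_self]
    exact hb
  · intro A π hπ
    have h5 := h4 A π hπ
    rw [code_length]
    exact ⟨h5.ext, Nat.sInf_le (s := {b : ℕ | NarrowProof F A b (g π)}) h5⟩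

end Pool.Agent.H.MP_0447ec_lc.PS.NonconstantHypotheses
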