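import Pool.Agent.H.MP_0447ec_lc.OH.Eval

/-!
# One-hot blocks
-/

namespace Pool.Agent.H.MP_0447ec_lc.PS

open Fm Pool.Agent.H.MP_0447ec_lc.PT

theorem eval_bigOr {l : List Fm} (hl : l ≠ []) (v : Nm → Prop) :
    (bigOr l).Eval v ↔ ∃ A ∈ l, A.Eval v := by
  induction l with
  | nil => exact absurd rfl hl
  | cons A l ih =>
    cases l with
    | nil => simp [bigOr]
    | cons B l =>
      have h1 := ih (by simp)
      show (A.Eval v ∨ (bigOr (B :: l)).Eval v) ↔ _
      rw [h1]
      simp

theorem eval_bigAnd (l : List Fm) (v : Nm → Prop) :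
    (bigAnd l).Eval v ↔ ∀ A ∈ l, A.Eval v := by
  induction l with
  | nil => simp [bigAnd, Fm.Eval]
  | cons A l ih =>
    cases l with
    | nil => simp [bigAnd]
    | cons B l =>
      show (A.Eval v ∧ (bigAnd (B :: l)).Eval v) ↔ _
      rw [ih]
      simp

theorem oh_amo_cons (x : Nm) (l : List Nm) :
    amo (x :: l) = l.map (fun y => neg (Fm.and (var x) (var y))) ++ amo l := rfl

theorem oh_amo_eval {b : List Nm} (hn : b.Nodup) (v : Nm → Prop) :
    (∀ A ∈ amo b, A.Eval v) ↔ ∀ x ∈ b, ∀ y ∈ b, v x → v y → x = y := by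
  induction b with
  | nil => simp [amo]
  | cons z b ih =>
    have hz : z ∉ b := (List.nodup_cons.1 hn).1
    have h1 := ih (List.nodup_cons.1 hn).2
    have h2 : (∀ A ∈ amo (z :: b), A.Eval v) ↔
        (∀ y ∈ b, ¬ (v z ∧ v y)) ∧ ∀ A ∈ amo b, A.Eval v := by
      rw [oh_amo_cons]
      constructor
      · intro h
        refine ⟨fun y hy => ?_, fun A hA => h A (List.mem_append_right _ hA)⟩
        exact h _ (List.mem_append_left _ (List.mem_map.2 ⟨y, hy, rfl⟩))
      · rintro ⟨h, h'⟩ A hA
        rcases List.mem_append.1 hA with hA | hA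
        · obtain ⟨y, hy, rfl⟩ := List.mem_map.1 hA
          exact h y hy
        · exact h' A hA
    rw [h2, h1]
    constructor
    · rintro ⟨h3, h4⟩ x hx y hy vx vy
      rcases List.mem_cons.1 hx with hx1 | hx1
      · rcases List.mem_cons.1 hy with hy1 | hy1
        · rw [hx1, hy1]
        · rw [hx1] at vx
          exact absurd ⟨vx, vy⟩ (h3 y hy1)
      · rcases List.mem_cons.1 hy with hy1 | hy1
        · rw [hy1] at vy
          exact absurd ⟨vy, vx⟩ (h3 x hx1)
        · exact h4 x hx1 y hy1 vx vy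
    · intro h
      refine ⟨fun y hy hv => ?_, fun x hx y hy => ?_⟩
      · have h3 := h z (List.mem_cons_self ..) y (List.mem_cons_of_mem _ hy) hv.1 hv.2
        rw [h3] at hz
        exact hz hy
      · exact h x (List.mem_cons_of_mem _ hx) y (List.mem_cons_of_mem _ hy)

/-- The meaning of `oh b`. -/
theorem eval_oh {b : List Nm} (hb : b ≠ []) (hn : b.Nodup) (v : Nm → Prop) :
    (oh b).Eval v ↔ ∃! x, x ∈ b ∧ v x := by
  have h0 : b.map var ≠ [] := by simpa using hb
  show ((bigOr (b.map var)).Eval v ∧ (bigAnd (amo b)).Eval v) ↔ _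
  rw [eval_bigOr h0, eval_bigAnd, oh_amo_eval hn]
  constructor
  · rintro ⟨⟨A, hA, hv⟩, h⟩
    obtain ⟨x, hx, rfl⟩ := List.mem_map.1 hA
    exact ⟨x, ⟨hx, hv⟩, fun y hy => h y hy.1 x hx hy.2 hv⟩
  · rintro ⟨x, ⟨hx, hv⟩, h⟩
    refine ⟨⟨var x, List.mem_map.2 ⟨x, hx, rfl⟩, hv⟩, fun y hy z hz vy vz => ?_⟩
    rw [h y ⟨hy, vy⟩, h z ⟨hz, vz⟩]

theorem oh_vars_bigOr {l : List Fm} (hl : l ≠ []) {x : Nm} :
    x ∈ (bigOr l).vars ↔ ∃ A ∈ l, x ∈ A.vars := by
  induction l with
  | nil => exact absurd rfl hl
  | cons A l ih =>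
    cases l with
    | nil => simp [bigOr]
    | cons B l =>
      have h1 := ih (by simp)
      show (x ∈ A.vars ∪ (bigOr (B :: l)).vars) ↔ _
      rw [Set.mem_union, h1]
      simp

theorem oh_vars_bigAnd {l : List Fm} (hl : l ≠ []) {x : Nm} :
    x ∈ (bigAnd l).vars ↔ ∃ A ∈ l, x ∈ A.vars := by
  induction l with
  | nil => exact absurd rfl hl
  | cons A l ih =>
    cases l with
    | nil => simp [bigAnd]
    | cons B l =>
      have h1 := ih (by simp)
      show (x ∈ A.vars ∪ (bigAnd (B :: l)).vars) ↔ _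
      rw [Set.mem_union, h1]
      simp

theorem oh_vars_amo {b : List Nm} {A : Fm} (hA : A ∈ amo b) {x : Nm} (hx : x ∈ A.vars) :
    x ∈ b := by
  induction b with
  | nil => simp [amo] at hA
  | cons z b ih =>
    rw [oh_amo_cons] at hA
    rcases List.mem_append.1 hA with hA | hA
    · obtain ⟨y, hy, rfl⟩ := List.mem_map.1 hA
      simp only [Fm.vars, Set.mem_union, Set.mem_singleton_iff] at hx
      rcases hx with rfl | rfl
      · exact List.mem_cons_self ..
      · exact List.mem_cons_of_mem _ hy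
    · exact List.mem_cons_of_mem _ (ih hA)

theorem vars_oh {b : List Nm} (hb : 2 ≤ b.length) {x : Nm} : x ∈ (oh b).vars ↔ x ∈ b := by
  match b, hb with
  | y :: z :: b, _ =>
    have h0 : (y :: z :: b).map var ≠ [] := by simp
    have h1 : amo (y :: z :: b) ≠ [] := by simp [amo]
    show (x ∈ (bigOr ((y :: z :: b).map var)).vars ∪ (bigAnd (amo (y :: z :: b))).vars) ↔ _
    rw [Set.mem_union, oh_vars_bigOr h0, oh_vars_bigAnd h1]
    constructor
    · rintro (⟨A, hA, hx⟩ | ⟨A, hA, hx⟩)
      · obtain ⟨w, hw, rfl⟩ := List.mem_map.1 hA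
        simp only [Fm.vars, Set.mem_singleton_iff] at hx
        rw [hx]
        exact hw
      · exact oh_vars_amo hA hx
    · intro hx
      exact Or.inl ⟨var x, List.mem_map.2 ⟨x, hx, rfl⟩, rfl⟩

theorem ohs_eq (bs : List (List Nm)) (B : Fm) : ohs bs B = imps (bs.map oh) B := by
  unfold ohs imps
  rw [List.foldr_map]

theorem oh_nonConst {b : List Nm} (hb : 2 ≤ b.length) (hn : b.Nodup) : NonConst (oh b) := by
  match b, hb, hn with
  | y :: z :: b, _, hn =>
    have hyz : y ≠ z := by
      intro h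
      have h1 := (List.nodup_cons.1 hn).1
      rw [h] at h1
      exact h1 (List.mem_cons_self ..)
    refine ⟨?_, ?_⟩
    · rw [eval_oh (by simp) hn]
      rintro ⟨x, -, h⟩
      have h1 := h y ⟨List.mem_cons_self .., trivial⟩
      have h2 := h z ⟨List.mem_cons_of_mem _ (List.mem_cons_self ..), trivial⟩
      exact hyz (h1.trans h2.symm)
    · rw [eval_oh (by simp) hn]
      rintro ⟨x, ⟨-, h⟩, -⟩
      exact h

theorem blocks_oh {bs : List (List Nm)} (hn : bs.flatten.Nodup)
    (hb : ∀ b ∈ bs, 2 ≤ b.length) : Blocks (bs.map oh) := by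
  obtain ⟨h1, h2⟩ := List.nodup_flatten.1 hn
  refine ⟨?_, ?_⟩
  · rw [List.pairwise_map]
    refine List.Pairwise.imp_of_mem ?_ h2
    intro b b' hb1 hb2 hd x hx hx'
    rw [vars_oh (hb b hb1)] at hx
    rw [vars_oh (hb b' hb2)] at hx'
    exact hd hx hx'
  · intro H hH
    obtain ⟨b, hb1, rfl⟩ := List.mem_map.1 hH
    exact oh_nonConst (hb b hb1) (h1 b hb1)

/-- One step in the computation of `bigOr`. -/
def oh_stepO (A : Fm) (s : Option Fm) : Option Fm :=
  match s with
  | none => some A
  | some X => some (Fm.or A X)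

/-- One step in the computation of `bigAnd`. -/
def oh_stepA (A : Fm) (s : Option Fm) : Option Fm :=
  match s with
  | none => some A
  | some X => some (Fm.and A X)

theorem oh_foldO {l : List Fm} (hl : l ≠ []) : l.foldr oh_stepO none = some (bigOr l) := by
  induction l with
  | nil => exact absurd rfl hl
  | cons A l ih =>
    cases l with
    | nil => rfl
    | cons B l =>
      rw [List.foldr_cons, ih (by simp)]
      rfl

theorem oh_foldA {l : List Fm} (hl : l ≠ []) : l.foldr oh_stepA none = some (bigAnd l) := by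
  induction l with
  | nil => exact absurd rfl hl
  | cons A l ih =>
    cases l with
    | nil => rfl
    | cons B l =>
      rw [List.foldr_cons, ih (by simp)]
      rfl

theorem oh_getO (l : List Fm) :
    bigOr l = (l.foldr oh_stepO none).getD (neg (imp (var []) (var []))) := by
  cases l with
  | nil => rfl
  | cons A l => rw [oh_foldO (by simp)]; rfl

theorem oh_getA (l : List Fm) :
    bigAnd l = (l.foldr oh_stepA none).getD (imp (var []) (var [])) := by
  cases l with
  | nil => rfl
  | cons A l => rw [oh_foldA (by simp)]; rfl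

theorem oh_szO (l : List Fm) : sz (l.foldr oh_stepO none) ≤ 11 * sz l := by
  induction l with
  | nil => rw [List.foldr_nil, sz_none, sz_lnil]; omega
  | cons A l ih =>
    rw [List.foldr_cons, sz_lcons]
    have h1 := sz_pos A
    have h2 := sz_pos l
    cases h : l.foldr oh_stepO none with
    | none => simp only [oh_stepO, sz_some]; omega
    | some X =>
      rw [h, sz_some] at ih
      simp only [oh_stepO, sz_some, sz_or]
      omega

theorem oh_szA (l : List Fm) : sz (l.foldr oh_stepA none) ≤ 11 * sz l := by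
  induction l with
  | nil => rw [List.foldr_nil, sz_none, sz_lnil]; omega
  | cons A l ih =>
    rw [List.foldr_cons, sz_lcons]
    have h1 := sz_pos A
    have h2 := sz_pos l
    cases h : l.foldr oh_stepA none with
    | none => simp only [oh_stepA, sz_some]; omega
    | some X =>
      rw [h, sz_some] at ih
      simp only [oh_stepA, sz_some, sz_and]
      omega

theorem oh_amo_sp (b : List Nm) : ∀ pre : List Nm,
    amo b = (sp pre b).flatMap (fun t => t.2.2.map (fun y => neg (Fm.and (var t.2.1) (var y)))) := by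
  induction b with
  | nil => intro pre; rfl
  | cons x b ih =>
    intro pre
    rw [sp, List.flatMap_cons, ← ih]
    rfl

section

variable {α : Type} [Enc α]

@[fun_prop]
theorem Poly.bigOr {l : α → List Fm} (hl : Poly l) : Poly (fun a => bigOr (l a)) := by
  have hstep : Poly (fun p : α × Option Fm × Fm => oh_stepO p.2.2 p.2.1) := by
    have h0 := PT.Poly.ocase (l := fun p : α × Option Fm × Fm => p.2.1) (f := fun p => some p.2.2)
      (g := fun p X => some (Fm.or p.2.2 X)) (by fun_prop) (by fun_prop) (by fun_prop)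
    refine (show (fun p : α × Option Fm × Fm => oh_stepO p.2.2 p.2.1) = _ from ?_) ▸ h0
    funext p
    cases p.2.1 <;> rfl
  have h1 := PT.Poly.foldr (f := fun p : α × Option Fm × Fm => oh_stepO p.2.2 p.2.1)
    (l := l) (s0 := fun _ => (none : Option Fm)) (B := fun a => 11 * sz (l a))
    hstep hl (by fun_prop) ((PBdd.const 11).mul hl.sz_le) (by
      intro a l₁ l₂ h
      have h2 : sz l₂ ≤ sz (l a) := by
        rw [h]; exact sz_sublist_le (List.sublist_append_right _ _)
      have h3 := oh_szO l₂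
      have h4 : l₂.foldr (fun b s => (fun p : α × Option Fm × Fm =>
          oh_stepO p.2.2 p.2.1) (a, s, b)) none = l₂.foldr oh_stepO none := rfl
      rw [h4]
      omega)
  have h2 := PT.Poly.ogetD h1 (PT.Poly.const (α := α) (neg (imp (var []) (var []))))
  refine (show (fun a => PS.bigOr (l a)) = _ from ?_) ▸ h2
  funext a
  exact oh_getO (l a)

@[fun_prop]
theorem Poly.bigAnd {l : α → List Fm} (hl : Poly l) : Poly (fun a => bigAnd (l a)) := by
  have hstep : Poly (fun p : α × Option Fm × Fm => oh_stepA p.2.2 p.2.1) := by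
    have h0 := PT.Poly.ocase (l := fun p : α × Option Fm × Fm => p.2.1) (f := fun p => some p.2.2)
      (g := fun p X => some (Fm.and p.2.2 X)) (by fun_prop) (by fun_prop) (by fun_prop)
    refine (show (fun p : α × Option Fm × Fm => oh_stepA p.2.2 p.2.1) = _ from ?_) ▸ h0
    funext p
    cases p.2.1 <;> rfl
  have h1 := PT.Poly.foldr (f := fun p : α × Option Fm × Fm => oh_stepA p.2.2 p.2.1)
    (l := l) (s0 := fun _ => (none : Option Fm)) (B := fun a => 11 * sz (l a))
    hstep hl (by fun_prop) ((PBdd.const 11).mul hl.sz_le) (by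
      intro a l₁ l₂ h
      have h2 : sz l₂ ≤ sz (l a) := by
        rw [h]; exact sz_sublist_le (List.sublist_append_right _ _)
      have h3 := oh_szA l₂
      have h4 : l₂.foldr (fun b s => (fun p : α × Option Fm × Fm =>
          oh_stepA p.2.2 p.2.1) (a, s, b)) none = l₂.foldr oh_stepA none := rfl
      rw [h4]
      omega)
  have h2 := PT.Poly.ogetD h1 (PT.Poly.const (α := α) (imp (var []) (var [])))
  refine (show (fun a => PS.bigAnd (l a)) = _ from ?_) ▸ h2
  funext a
  exact oh_getA (l a)

theorem oh_polyAmo {b : α → List Nm} (hb : Poly b) : Poly (fun a => amo (b a)) := by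
  have h1 : Poly (fun a => (sp [] (b a)).flatMap
      (fun t => t.2.2.map (fun y => neg (Fm.and (var t.2.1) (var y))))) :=
    PT.Poly.flatMap (by fun_prop) (Poly.sp hb)
  refine (show (fun a => amo (b a)) = _ from ?_) ▸ h1
  funext a
  exact oh_amo_sp (b a) []

@[fun_prop]
theorem Poly.oh {b : α → List Nm} (hb : Poly b) : Poly (fun a => oh (b a)) := by
  have h1 := oh_polyAmo hb
  have h2 : Poly (fun a => (b a).map var) := PT.Poly.map (by fun_prop) hb
  exact Poly.fmAnd (Poly.bigOr h2) (Poly.bigAnd h1)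

@[fun_prop]
theorem Poly.ohs {bs : α → List (List Nm)} {B : α → Fm} (hb : Poly bs) (hB : Poly B) :
    Poly (fun a => ohs (bs a) (B a)) := by
  have h1 : Poly (fun a => (bs a).map PS.oh) :=
    PT.Poly.map (f := fun _ => PS.oh) (Poly.oh PT.Poly.snd) hb
  have h2 := Poly.imps h1 hB
  refine (show (fun a => PS.ohs (bs a) (B a)) = _ from ?_) ▸ h2
  funext a
  exact ohs_eq (bs a) (B a)

end

end Pool.Agent.H.MP_0447ec_lc.PS
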