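import Pool.Agent.H.MP_0447ec_lc.OH.Defs

/-!
# Renaming of the registers by the substitution rule

Proofs. `renT` maps the bit `k` of the register `j` to the bit `k` of the register `j` (`j < i`) or
`j + 1` (`j ≥ i`). `tsub (renT c J i)` does not move `pz` and `[]` (`tsub_of_not_mem`,
`pz_not_mem_rgs`, `nil_not_mem_regs`), on the bits of the registers it is given by `tsub_of_mem`
(the first components are `(rgs A J).flatten` up to the form, `regs_nodup`). Substituting in
`anyr`, `eqr` by `dp_dj_subst`, `dp_cj_subst` (`LV/Dp.lean`). The formula `ZZ` is treated by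
induction on `Hs`, `Fm.subst_subst` and `Fm.subst_congr`.
-/

namespace Pool.Agent.H.MP_0447ec_lc.PS

open Fm Pool.Agent.H.MP_0447ec_lc.PT

/-- The table that renames the registers `0, …, J - 1` to the registers `0, …, J` without `i`. -/
def renT (c J i : ℕ) : List (Nm × Fm) :=
  (List.range J).flatMap (fun j =>
    (regName c j).zip ((regName c (if j < i then j else j + 1)).map var))

theorem ren_fst (c J i : ℕ) :
    (renT c J i).map Prod.fst = ((List.range J).map (regName c)).flatten := by
  unfold renT
  rw [List.map_flatMap, ← List.flatMap_def]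
  refine List.flatMap_congr ?_
  intro j _
  rw [List.map_fst_zip]
  rw [List.length_map, regName_length, regName_length]

theorem ren_map_of_zip {β γ : Type} (f : β → γ) : ∀ (l : List β) (m : List γ),
    l.length = m.length → (∀ p ∈ l.zip m, f p.1 = p.2) → l.map f = m
  | [], [], _, _ => rfl
  | [], _ :: _, h, _ => by simp at h
  | _ :: _, [], h, _ => by simp at h
  | x :: l, y :: m, h, hp => by
    rw [List.map_cons, ren_map_of_zip f l m (by simpa using h)
      (fun p hpm => hp p (by rw [List.zip_cons_cons]; exact List.mem_cons_of_mem _ hpm)),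
      hp (x, y) (by rw [List.zip_cons_cons]; exact List.mem_cons_self)]

theorem ren_reg {c J i j : ℕ} (hj : j < J) :
    (regName c j).map (tsub (renT c J i)) =
      (regName c (if j < i then j else j + 1)).map var := by
  apply ren_map_of_zip
  · rw [List.length_map, regName_length, regName_length]
  · intro p hp
    apply tsub_of_mem
    · unfold renT
      rw [List.mem_flatMap]
      exact ⟨j, List.mem_range.2 hj, hp⟩
    · rw [ren_fst]
      exact regs_nodup _ _

theorem ren_lits (s : Nm → Fm) : ∀ (ys ys' : List Nm) (w : List Bool),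
    ys.map s = ys'.map var →
    ((ys.zip w).map (fun p => lit p.1 p.2)).map (Fm.subst s) =
      (ys'.zip w).map (fun p => lit p.1 p.2)
  | [], [], _, _ => rfl
  | [], _ :: _, _, h => by simp at h
  | _ :: _, [], _, h => by simp at h
  | y :: ys, y' :: ys', [], _ => rfl
  | y :: ys, y' :: ys', b :: w, h => by
    rw [List.map_cons, List.map_cons, List.cons.injEq] at h
    rw [List.zip_cons_cons, List.zip_cons_cons, List.map_cons, List.map_cons, List.map_cons,
      ren_lits s ys ys' w h.2]
    congr 1
    show (lit y b).subst s = lit y' b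
    rw [dp_lit_subst, h.1]
    rfl

theorem ren_anyr {s : Nm → Fm} (hs : s [] = var []) {R R' : List (List Nm)}
    (h : R.map (fun ys => ys.map s) = R'.map (fun ys => ys.map var)) (w : List Bool) :
    (anyr [] R w).subst s = anyr [] R' w := by
  unfold anyr
  rw [dp_dj_subst hs, List.map_map]
  congr 1
  induction R generalizing R' with
  | nil =>
    cases R' with
    | nil => rfl
    | cons y R' => simp at h
  | cons x R ih =>
    cases R' with
    | nil => simp at h
    | cons y R' =>
      rw [List.map_cons, List.map_cons, List.cons.injEq] at h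
      rw [List.map_cons, List.map_cons, ih h.2]
      congr 1
      show (eqr [] x w).subst s = eqr [] y w
      unfold eqr
      rw [dp_cj_subst hs, ren_lits s x y w h.1]

theorem ren_tS {s : Nm → Fm} (hs : s [] = var []) {R R' : List (List Nm)}
    (h : R.map (fun ys => ys.map s) = R'.map (fun ys => ys.map var)) (f : Bool) (A : Fm) (x : Nm) :
    (tS f R A x).subst s = tS f R' A x := by
  unfold tS
  split_ifs
  · show neg ((anyr [] R (kap A x)).subst s) = _
    rw [ren_anyr hs h]
  · exact ren_anyr hs h _

theorem ren_imps (s : Nm → Fm) (Hs : List Fm) (B : Fm) :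
    (imps Hs B).subst s = imps (Hs.map (Fm.subst s)) (B.subst s) := by
  induction Hs with
  | nil => rfl
  | cons H Hs ih => rw [imps_cons, List.map_cons, imps_cons, ← ih]; rfl

theorem ren_erase (A : Fm) {J i : ℕ} (hi : i ≤ J) :
    (rgs A (J + 1)).eraseIdx i =
      (List.range J).map (fun j => regName (bitLen A) (if j < i then j else j + 1)) := by
  apply List.ext_getElem
  · rw [List.length_eraseIdx_of_lt (by rw [rgs_length]; omega), rgs_length, List.length_map,
      List.length_range]
    omega
  · intro j h1 h2
    rw [List.getElem_eraseIdx, List.getElem_map, List.getElem_range]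
    unfold rgs
    split_ifs <;> rw [List.getElem_map, List.getElem_range]

theorem ren_ne_nil (c J i : ℕ) : tsub (renT c J i) [] = var [] := by
  apply tsub_of_not_mem
  rw [ren_fst]
  exact nil_not_mem_regs _ _

theorem ZZ_ren (f : Bool) (A : Fm) (Hs : List Fm) (J i : ℕ) (hi : i ≤ J) :
    (ZZ f (rgs A J) A Hs).subst (tsub (renT (bitLen A) J i)) =
      ZZ f ((rgs A (J + 1)).eraseIdx i) A Hs := by
  have h1 : (rgs A J).map (fun ys => ys.map (tsub (renT (bitLen A) J i))) =
      ((rgs A (J + 1)).eraseIdx i).map (fun ys => ys.map var) := by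
    rw [ren_erase A hi]
    unfold rgs
    rw [List.map_map, List.map_map]
    refine List.map_congr_left ?_
    intro j hj
    exact ren_reg (List.mem_range.1 hj)
  have h2 : tsub (renT (bitLen A) J i) pz = var pz := by
    apply tsub_of_not_mem
    rw [ren_fst]
    exact pz_not_mem_rgs A J
  unfold ZZ
  rw [ren_imps, List.map_map]
  congr 1
  refine List.map_congr_left ?_
  intro H _
  show (H.subst (tS f (rgs A J) A)).subst _ = _
  rw [Fm.subst_subst]
  refine Fm.subst_congr ?_
  intro x _
  exact ren_tS (ren_ne_nil _ _ _) h1 f A x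

/-- A formula is substituted for the new variable. -/
theorem ZZ_pz (f : Bool) (A : Fm) (Hs : List Fm) (J : ℕ) (X : Fm) :
    (ZZ f (rgs A J) A Hs).subst (tsub [(pz, X)]) =
      imps (Hs.map (fun H => H.subst (tS f (rgs A J) A))) X := by
  unfold ZZ
  rw [ren_imps, List.map_map]
  have h0 : (var pz).subst (tsub [(pz, X)]) = X := by
    show tsub [(pz, X)] pz = X
    rw [tsub_cons, if_pos rfl]
  rw [h0]
  congr 1
  refine List.map_congr_left ?_
  intro H _
  show (H.subst (tS f (rgs A J) A)).subst _ = _
  rw [Fm.subst_subst]
  refine Fm.subst_congr ?_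
  intro x _
  refine Fm.subst_eq_self ?_
  intro y hy
  rw [tsub_cons, tsub_nil]
  have h1 : pz ≠ y := by
    rintro rfl
    rcases vars_tS hy with h | h
    · exact pz_ne_nil h
    · exact pz_not_mem_rgs A J h
  rw [if_neg h1]

section

variable {α : Type} [Enc α]

@[fun_prop]
theorem Poly.renT {c J i : α → ℕ} (hc : Poly c) (hJ : Poly J) (hi : Poly i) :
    Poly (fun a => renT (c a) (J a) (i a)) := by
  unfold PS.renT
  fun_prop

end

end Pool.Agent.H.MP_0447ec_lc.PS
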