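import Pool.Agent.H.MP_0447ec_lc.OH.Defs

/-!
# A register that contains the code of one variable does not satisfy the other hypotheses

Proofs. `litsOf_hyp`: `eqr [] ys w = cj [] (literals)`, `litsOf` of a conjunction of literals, by
induction on `ys` and `w` (`ands (Fm.and A B) = Fm.and A B :: (ands A ++ ands B)`); the end
`ct [] true` and `anyr [] R w` (`tokb_ands_dj`) give no literal. `sm_anyr_erase`: induction on `R`
and `i`, with `dj_cons`, `sm_or`, `smOr (some false, _) q = q`. `sm_ZZ_erase`: by induction on `Hs`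
with `sm_imp` and `sm_subst` (`LV/Engine.lean`) it is enough that
`sm K (tS f (R.eraseIdx i) A y) = sm K (tS f R A y)` for the variables `y` of the formulas in `Hs`;
this follows from `sm_anyr_erase` because `sm K (eqr [] R[i] (kap A y)) = (some false, var [])` by
`litsOf_hyp`, `sm_eqr` (`LV/Reg0.lean`), `kap_inj` and `y ≠ x`.
-/

namespace Pool.Agent.H.MP_0447ec_lc.PS

open Fm Pool.Agent.H.MP_0447ec_lc.PT

theorem sma_litsOf_and (A B : Fm) : litsOf (Fm.and A B) = litsOf A ++ litsOf B := by
  unfold litsOf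
  rw [ands, List.flatMap_cons, List.flatMap_append]
  rfl

theorem sma_litsOf_lit (p : Nm × Bool) : litsOf (lit p.1 p.2) = [p] := by
  obtain ⟨x, b⟩ := p
  cases b <;> rfl

theorem sma_litsOf_dj (d : Nm) (Γ : List Fm) : litsOf (dj d Γ) = [] := by
  cases Γ <;> rfl

theorem sma_litsOf_cj (d : Nm) (l : List (Nm × Bool)) :
    litsOf (cj d (l.map (fun p => lit p.1 p.2))) = l := by
  induction l with
  | nil => rfl
  | cons p l ih =>
    rw [List.map_cons, cj_cons, sma_litsOf_and, ih, sma_litsOf_lit]
    rfl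

theorem litsOf_hyp {ys : List Nm} {w : List Bool} (R : List (List Nm)) :
    litsOf (Fm.and (eqr [] ys w) (anyr [] R w)) = ys.zip w := by
  rw [sma_litsOf_and]
  unfold eqr anyr
  rw [sma_litsOf_cj, sma_litsOf_dj, List.append_nil]

theorem sm_anyr_erase {K : List (Nm × Bool)} {w : List Bool} : ∀ {R : List (List Nm)} {i : ℕ}
    (hi : i < R.length), sm K (eqr [] R[i] w) = (some false, var []) →
    sm K (anyr [] (R.eraseIdx i) w) = sm K (anyr [] R w) := by
  intro R
  induction R with
  | nil => intro i hi; simp at hi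
  | cons ys R ih =>
    intro i hi h
    cases i with
    | zero =>
      rw [List.eraseIdx_cons_zero]
      show _ = sm K (Fm.or (eqr [] ys w) (anyr [] R w))
      rw [sm_or, show sm K (eqr [] ys w) = (some false, var []) from h]
      rfl
    | succ i =>
      rw [List.eraseIdx_cons_succ]
      show sm K (Fm.or (eqr [] ys w) (anyr [] (R.eraseIdx i) w)) =
        sm K (Fm.or (eqr [] ys w) (anyr [] R w))
      rw [sm_or, sm_or, ih (i := i) (by simpa using hi) (by simpa using h)]

/-- The hypothesis that the register with number `i` contains the code of `x`. -/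
def hyE (R : List (List Nm)) (A : Fm) (i : ℕ) (x : Nm) : Fm :=
  Fm.and (eqr [] (R.getD i []) (kap A x)) (anyr [] R (kap A x))

theorem sm_ZZ_erase {f : Bool} {A : Fm} {R : List (List Nm)} {Hs : List Fm} {i : ℕ} {x : Nm}
    (hi : i < R.length) (hn : (R[i]).Nodup) (hl : (R[i]).length = bitLen A) (hx : x ∈ A.vars)
    (hH : ∀ H ∈ Hs, ∀ y ∈ H.vars, y ∈ A.vars ∧ y ≠ x) :
    sm (litsOf (hyE R A i x)) (ZZ f (R.eraseIdx i) A Hs) =
      sm (litsOf (hyE R A i x)) (ZZ f R A Hs) := by
  have hg : R.getD i [] = R[i] := by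
    rw [List.getD_eq_getElem _ _ hi]
  have hK : litsOf (hyE R A i x) = (R[i]).zip (kap A x) := by
    unfold hyE
    rw [litsOf_hyp, hg]
  have hf : ∀ y, y ∈ A.vars → y ≠ x →
      sm (litsOf (hyE R A i x)) (eqr [] R[i] (kap A y)) = (some false, var []) := by
    intro y hy hyx
    rw [hK, sm_eqr hn (by rw [kap_length, hl]) (by rw [kap_length, hl])]
    have : kap A x ≠ kap A y := fun h => hyx (kap_inj hx hy h).symm
    rw [decide_eq_false this]
  unfold ZZ
  induction Hs with
  | nil => rfl
  | cons H Hs ih =>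
    rw [List.map_cons, List.map_cons, imps_cons, imps_cons, sm_imp, sm_imp,
      ih (fun H' hH' => hH H' (List.mem_cons_of_mem _ hH'))]
    congr 1
    refine sm_subst fun y hy => ?_
    obtain ⟨h1, h2⟩ := hH H List.mem_cons_self y hy
    have h3 := sm_anyr_erase hi (hf y h1 h2)
    unfold tS
    cases f
    · exact h3
    · show sm _ (neg _) = sm _ (neg _)
      rw [sm_neg, sm_neg, h3]

theorem hyE_vars {R : List (List Nm)} {A : Fm} {i : ℕ} {x y : Nm} (hi : i < R.length)
    (h : y ∈ (hyE R A i x).vars) : y = [] ∨ y ∈ R.flatten := by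
  rcases h with h | h
  · rcases vars_eqr h with h | h
    · exact Or.inl h
    · right
      rw [List.getD_eq_getElem _ _ hi] at h
      exact List.mem_flatten.2 ⟨_, List.getElem_mem hi, h⟩
  · exact vars_anyr h

section

variable {α : Type} [Enc α]

@[fun_prop]
theorem Poly.hyE {R : α → List (List Nm)} {A : α → Fm} {i : α → ℕ} {x : α → Nm} (hR : Poly R)
    (hA : Poly A) (hi : Poly i) (hx : Poly x) : Poly (fun a => hyE (R a) (A a) (i a) (x a)) := by
  unfold PS.hyE
  fun_prop

end

end Pool.Agent.H.MP_0447ec_lc.PS
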