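import Pool.Agent.H.MP_0447ec_lc.OH.Cut
import Pool.Agent.H.MP_0447ec_lc.OH.Sma
import Pool.Agent.H.MP_0447ec_lc.OH.Ren

/-!
# The pigeonhole principle by the substitution rule

`ZZ f (rgs A l) A Gs` for `l` registers and `l + 1` formulas `Gs` with disjoint sets of variables
that are false at the constant assignment `f`, by induction on `l`, without new variables.
-/

namespace Pool.Agent.H.MP_0447ec_lc.PS

open Fm Pool.Agent.H.MP_0447ec_lc.PT

/-- Lines that derive `imp (anyr [] R (kap A x)) (ZZ f R A Hs)` from the formulas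
`ZZ f (R.eraseIdx i) A Hs`. -/
def phX (f : Bool) (R : List (List Nm)) (A : Fm) (Hs : List Fm) (x : Nm) : List Fm :=
  (List.range R.length).flatMap (fun i =>
    li0 [] (hyE R A i x) (ZZ f (R.eraseIdx i) A Hs) (ZZ f R A Hs)) ++
  caseL [] (anyr [] R (kap A x)) (ZZ f R A Hs) (R.map (fun ys => eqr [] ys (kap A x)))

theorem phX_just {G : List Rule} (hG : Rich G) {f : Bool} {A : Fm} {l : ℕ} {Hs : List Fm}
    {x : Nm} (hx : x ∈ A.vars) (hH : ∀ H ∈ Hs, ∀ y ∈ H.vars, y ∈ A.vars ∧ y ≠ x) {π : List Fm}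
    (h : ∀ i < l, ZZ f ((rgs A l).eraseIdx i) A Hs ∈ π) :
    Just (RuleStep G) π (phX f (rgs A l) A Hs x) ∧
      imp (anyr [] (rgs A l) (kap A x)) (ZZ f (rgs A l) A Hs) ∈ phX f (rgs A l) A Hs x := by
  have key : ∀ i < l, ∀ π : List Fm, ZZ f ((rgs A l).eraseIdx i) A Hs ∈ π →
      Just (RuleStep G) π (li0 [] (hyE (rgs A l) A i x) (ZZ f ((rgs A l).eraseIdx i) A Hs)
        (ZZ f (rgs A l) A Hs)) ∧
      imp (hyE (rgs A l) A i x) (ZZ f (rgs A l) A Hs) ∈
        li0 [] (hyE (rgs A l) A i x) (ZZ f ((rgs A l).eraseIdx i) A Hs) (ZZ f (rgs A l) A Hs) := by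
    intro i hi π h
    have hi' : i < (rgs A l).length := by rw [rgs_length]; exact hi
    exact li0_just hG h (sm_ZZ_erase hi' (mem_rgs_nodup (List.getElem_mem hi'))
      (mem_rgs_length (List.getElem_mem hi')) hx hH)
  have j1 : Just (RuleStep G) π ((List.range (rgs A l).length).flatMap (fun i =>
      li0 [] (hyE (rgs A l) A i x) (ZZ f ((rgs A l).eraseIdx i) A Hs) (ZZ f (rgs A l) A Hs))) := by
    refine Just.flatMap (mono_ruleStep G) _ _ _ ?_
    intro i hi
    rw [List.mem_range, rgs_length] at hi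
    exact (key i hi π (h i hi)).1
  obtain ⟨j2, m2⟩ := caseL_just hG (d := []) (H := anyr [] (rgs A l) (kap A x))
    (A := ZZ f (rgs A l) A Hs) (Xs := (rgs A l).map (fun ys => eqr [] ys (kap A x)))
    (π := π ++ (List.range (rgs A l).length).flatMap (fun i =>
      li0 [] (hyE (rgs A l) A i x) (ZZ f ((rgs A l).eraseIdx i) A Hs) (ZZ f (rgs A l) A Hs)))
    (by
      intro X hX
      obtain ⟨ys, hys, rfl⟩ := List.mem_map.1 hX
      obtain ⟨i, hi, rfl⟩ := List.getElem_of_mem hys
      have hi' : i < l := by rwa [rgs_length] at hi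
      refine List.mem_append_right _ (List.mem_flatMap.2 ⟨i, List.mem_range.2 hi, ?_⟩)
      have := (key i hi' π (h i hi')).2
      unfold hyE at this ⊢
      rw [List.getD_eq_getElem _ _ hi] at this ⊢
      exact this)
    (self_mem_ands _)
  exact ⟨Just.append j1 j2, List.mem_append_right _ m2⟩

/-- Lines for one step of the induction. -/
def phS (f : Bool) (A : Fm) (l : ℕ) (D : Fm) (Hs : List Fm) : List Fm :=
  (List.range l).map (fun i => ZZ f ((rgs A l).eraseIdx i) A Hs) ++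
  ((dd (nms D)).flatMap (fun x => phX f (rgs A l) A Hs x) ++
    cutH f (rgs A l) A D (ZZ f (rgs A l) A Hs))

theorem phS_just {G : List Rule} (hG : Rich G) {f : Bool} {A D : Fm} {l : ℕ} {Hs : List Fm}
    (hD : ¬ D.Eval (fun _ => f = true)) (hDA : ∀ x ∈ D.vars, x ∈ A.vars)
    (hH : ∀ H ∈ Hs, ∀ y ∈ H.vars, y ∈ A.vars ∧ y ∉ D.vars) {π : List Fm}
    (h : ∀ l', l = l' + 1 → ZZ f (rgs A l') A Hs ∈ π) :
    Just (GS G) π (phS f A l D Hs) ∧ ZZ f (rgs A l) A (D :: Hs) ∈ phS f A l D Hs := by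
  have j1 : Just (GS G) π ((List.range l).map (fun i => ZZ f ((rgs A l).eraseIdx i) A Hs)) := by
    have key : ∀ (L : List ℕ), (∀ i ∈ L, i < l) → ∀ π' : List Fm, (∀ C ∈ π, C ∈ π') →
        Just (GS G) π' (L.map (fun i => ZZ f ((rgs A l).eraseIdx i) A Hs)) := by
      intro L
      induction L with
      | nil => intro _ _ _; trivial
      | cons i L ih =>
        intro hL π' hπ'
        refine ⟨Or.inr (Or.inr ?_), ih (fun j hj => hL j (List.mem_cons_of_mem _ hj)) _
          (fun C hC => List.mem_append_left _ (hπ' C hC))⟩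
        have hi := hL i (by simp)
        obtain ⟨l', rfl⟩ : ∃ l', l = l' + 1 := ⟨l - 1, by omega⟩
        exact ⟨_, hπ' _ (h l' rfl), tsub (renT (bitLen A) l' i),
          (ZZ_ren f A Hs l' i (by omega)).symm⟩
    exact key _ (fun i hi => List.mem_range.1 hi) π (fun C hC => hC)
  have hT : ∀ i < l, ZZ f ((rgs A l).eraseIdx i) A Hs ∈ π ++
      (List.range l).map (fun i => ZZ f ((rgs A l).eraseIdx i) A Hs) := fun i hi =>
    List.mem_append_right _ (List.mem_map_of_mem
      (f := fun i => ZZ f ((rgs A l).eraseIdx i) A Hs) (List.mem_range.2 hi))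
  have key2 : ∀ x ∈ D.vars, ∀ π' : List Fm,
      (∀ i < l, ZZ f ((rgs A l).eraseIdx i) A Hs ∈ π') →
      Just (RuleStep G) π' (phX f (rgs A l) A Hs x) ∧
      imp (anyr [] (rgs A l) (kap A x)) (ZZ f (rgs A l) A Hs) ∈ phX f (rgs A l) A Hs x := by
    intro x hx π' hπ'
    refine phX_just hG (hDA x hx) ?_ hπ'
    intro H hH' y hy
    obtain ⟨a, b⟩ := hH H hH' y hy
    exact ⟨a, fun e => b (e ▸ hx)⟩
  have j2 : Just (RuleStep G) (π ++
      (List.range l).map (fun i => ZZ f ((rgs A l).eraseIdx i) A Hs))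
      ((dd (nms D)).flatMap (fun x => phX f (rgs A l) A Hs x)) := by
    refine Just.flatMap (mono_ruleStep G) _ _ _ ?_
    intro x hx
    exact (key2 x (mem_nms.1 (mem_dd.1 hx)) _ hT).1
  obtain ⟨j3, m3⟩ := cutH_just hG (f := f) (R := rgs A l) (A := A) (D := D)
    (Z := ZZ f (rgs A l) A Hs) (π := π ++
      (List.range l).map (fun i => ZZ f ((rgs A l).eraseIdx i) A Hs) ++
      (dd (nms D)).flatMap (fun x => phX f (rgs A l) A Hs x)) hD (by
      intro x hx
      exact List.mem_append_right _ (List.mem_flatMap.2 ⟨x, mem_dd.2 (mem_nms.2 hx),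
        (key2 x hx _ hT).2⟩))
  refine ⟨Just.append j1 (Just.imp_step (Just.append j2 j3) (fun _ _ h => Or.inl h)), ?_⟩
  exact List.mem_append_right _ (List.mem_append_right _ m3)

/-- The lines of the whole induction, for the last `J + 1` formulas in `Gs`. -/
def phP (f : Bool) (A : Fm) (Gs : List Fm) (J : ℕ) : List Fm :=
  (List.range (J + 1)).flatMap (fun l =>
    phS f A l (Gs.getD (Gs.length - 1 - l) (var [])) (Gs.drop (Gs.length - l)))

theorem phP_just {G : List Rule} (hG : Rich G) {f : Bool} {A : Fm} {Gs : List Fm}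
    (hGs : Grp f Gs) (hA : ∀ H ∈ Gs, ∀ x ∈ H.vars, x ∈ A.vars) : ∀ {J : ℕ}, J < Gs.length →
    Just (GS G) [] (phP f A Gs J) ∧
      ZZ f (rgs A J) A (Gs.drop (Gs.length - 1 - J)) ∈ phP f A Gs J := by
  have hstep : ∀ l < Gs.length, ∀ π : List Fm,
      (∀ l', l = l' + 1 → ZZ f (rgs A l') A (Gs.drop (Gs.length - 1 - l')) ∈ π) →
      Just (GS G) π (phS f A l (Gs.getD (Gs.length - 1 - l) (var []))
        (Gs.drop (Gs.length - l))) ∧
      ZZ f (rgs A l) A (Gs.drop (Gs.length - 1 - l)) ∈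
        phS f A l (Gs.getD (Gs.length - 1 - l) (var [])) (Gs.drop (Gs.length - l)) := by
    intro l hl π h
    have hk : Gs.length - 1 - l < Gs.length := by omega
    have e1 : Gs.getD (Gs.length - 1 - l) (var []) = Gs[Gs.length - 1 - l] :=
      List.getD_eq_getElem _ _ hk
    have e2 : Gs.drop (Gs.length - 1 - l) =
        Gs[Gs.length - 1 - l] :: Gs.drop (Gs.length - l) := by
      rw [List.drop_eq_getElem_cons hk]
      congr 2
      omega
    rw [e1, e2]
    have hmem : Gs[Gs.length - 1 - l] ∈ Gs := List.getElem_mem hk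
    have hpw : ∀ H ∈ Gs.drop (Gs.length - l), ∀ x ∈ (Gs[Gs.length - 1 - l]).vars,
        x ∉ H.vars := by
      have h1 := hGs.1.sublist (List.drop_sublist (Gs.length - 1 - l) Gs)
      rw [e2, List.pairwise_cons] at h1
      exact fun H hH => h1.1 H hH
    refine phS_just hG (hGs.2 _ hmem) (hA _ hmem) ?_ ?_
    · intro H hH y hy
      refine ⟨hA H (List.mem_of_mem_drop hH) y hy, fun hy' => hpw H hH y hy' hy⟩
    · intro l' hl'
      have := h l' hl'
      rwa [show Gs.length - l = Gs.length - 1 - l' by omega]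
  intro J
  induction J with
  | zero =>
    intro hJ
    have := hstep 0 hJ [] (fun l' hl' => by omega)
    unfold phP
    simpa using this
  | succ J ih =>
    intro hJ
    obtain ⟨j1, m1⟩ := ih (by omega)
    have e : phP f A Gs (J + 1) = phP f A Gs J ++
        phS f A (J + 1) (Gs.getD (Gs.length - 1 - (J + 1)) (var []))
          (Gs.drop (Gs.length - (J + 1))) := by
      unfold phP
      rw [List.range_succ (n := J + 1), List.flatMap_append]
      simp
    rw [e]
    obtain ⟨j2, m2⟩ := hstep (J + 1) hJ ([] ++ phP f A Gs J) (fun l' hl' => by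
      obtain rfl : l' = J := by omega
      simpa using m1)
    exact ⟨Just.append j1 j2, List.mem_append_right _ m2⟩

/-! ### Variables -/

theorem vars_imps {Hs : List Fm} {B : Fm} {x : Nm} :
    x ∈ (imps Hs B).vars ↔ (∃ H ∈ Hs, x ∈ H.vars) ∨ x ∈ B.vars := by
  induction Hs with
  | nil => simp [imps_nil]
  | cons H Hs ih =>
    rw [imps_cons]
    simp only [Fm.vars, Set.mem_union, ih, List.mem_cons, exists_eq_or_imp]
    exact or_assoc.symm

theorem vars_tSsubst {f : Bool} {R : List (List Nm)} {A D : Fm} {x : Nm}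
    (h : x ∈ (D.subst (tS f R A)).vars) : x = [] ∨ x ∈ R.flatten := by
  obtain ⟨y, -, h⟩ := vars_subst h
  exact vars_tS h

theorem vars_ZZ {f : Bool} {R : List (List Nm)} {A : Fm} {Hs : List Fm} {x : Nm}
    (h : x ∈ (ZZ f R A Hs).vars) : x = pz ∨ x = [] ∨ x ∈ R.flatten := by
  unfold ZZ at h
  rcases vars_imps.1 h with ⟨H, hH, h⟩ | h
  · obtain ⟨D, -, rfl⟩ := List.mem_map.1 hH
    exact Or.inr (vars_tSsubst h)
  · exact Or.inl h

theorem mem_flatten_erase {R : List (List Nm)} {i : ℕ} {x : Nm}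
    (h : x ∈ (R.eraseIdx i).flatten) : x ∈ R.flatten := by
  obtain ⟨ys, hys, hx⟩ := List.mem_flatten.1 h
  exact List.mem_flatten.2 ⟨ys, List.mem_of_mem_eraseIdx hys, hx⟩

theorem mem_sfx {Γ : List Fm} : ∀ {l : List Fm}, Γ ∈ sfx l → ∀ A ∈ Γ, A ∈ l := by
  intro l
  induction l with
  | nil =>
    intro h
    simp only [sfx, List.mem_singleton] at h
    rw [h]
    exact fun _ h => h
  | cons B l ih =>
    intro h A hA
    simp only [sfx, List.mem_append, List.mem_singleton] at h
    rcases h with h | h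
    · exact List.mem_cons_of_mem _ (ih h A hA)
    · rw [h] at hA
      exact hA

theorem caseL_vars {d : Nm} {H A C : Fm} {Xs : List Fm} (hC : C ∈ caseL d H A Xs) {x : Nm}
    (hx : x ∈ C.vars) : x = d ∨ x ∈ H.vars ∨ x ∈ A.vars ∨ ∃ X ∈ Xs, x ∈ X.vars := by
  unfold caseL at hC
  simp only [List.mem_append, List.mem_singleton] at hC
  rcases hC with hC | hC | hC | hC
  · obtain ⟨X, hX, rfl⟩ := List.mem_map.1 hC
    rcases hx with hx | hx | hx
    · exact Or.inr (Or.inl hx)
    · exact Or.inr (Or.inr (Or.inr ⟨X, hX, hx⟩))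
    · exact Or.inr (Or.inr (Or.inl hx))
  · obtain ⟨Γ, hΓ, rfl⟩ := List.mem_map.1 hC
    rcases hx with hx | hx | hx
    · exact Or.inr (Or.inl hx)
    · rw [vars_dj] at hx
      rcases hx with hx | ⟨X, hX, hx⟩
      · exact Or.inl hx
      · exact Or.inr (Or.inr (Or.inr ⟨X, mem_sfx hΓ X hX, hx⟩))
    · exact Or.inr (Or.inr (Or.inl hx))
  · exact Or.inr (Or.inl (projL_vars hC hx))
  · subst hC
    rcases hx with hx | hx
    · exact Or.inr (Or.inl hx)
    · exact Or.inr (Or.inr (Or.inl hx))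

theorem phX_vars {f : Bool} {R : List (List Nm)} {A : Fm} {Hs : List Fm} {x y : Nm} {C : Fm}
    (hC : C ∈ phX f R A Hs x) (hy : y ∈ C.vars) : y = pz ∨ y = [] ∨ y ∈ R.flatten := by
  unfold phX at hC
  rcases List.mem_append.1 hC with hC | hC
  · obtain ⟨i, hi, hC⟩ := List.mem_flatMap.1 hC
    rw [List.mem_range] at hi
    rcases li0_vars hC hy with h | h | h | h
    · exact Or.inr (Or.inl h)
    · exact Or.inr (hyE_vars hi h)
    · rcases vars_ZZ h with h | h | h
      · exact Or.inl h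
      · exact Or.inr (Or.inl h)
      · exact Or.inr (Or.inr (mem_flatten_erase h))
    · exact vars_ZZ h
  · rcases caseL_vars hC hy with h | h | h | ⟨X, hX, h⟩
    · exact Or.inr (Or.inl h)
    · exact Or.inr (vars_anyr h)
    · exact vars_ZZ h
    · obtain ⟨ys, hys, rfl⟩ := List.mem_map.1 hX
      rcases vars_eqr h with h | h
      · exact Or.inr (Or.inl h)
      · exact Or.inr (Or.inr (List.mem_flatten.2 ⟨ys, hys, h⟩))

theorem phS_vars {f : Bool} {A D C : Fm} {l : ℕ} {Hs : List Fm} {y : Nm}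
    (hC : C ∈ phS f A l D Hs) (hy : y ∈ C.vars) : y = pz ∨ y = [] ∨ y ∈ (rgs A l).flatten := by
  unfold phS at hC
  rcases List.mem_append.1 hC with hC | hC
  · obtain ⟨i, -, rfl⟩ := List.mem_map.1 hC
    rcases vars_ZZ hy with h | h | h
    · exact Or.inl h
    · exact Or.inr (Or.inl h)
    · exact Or.inr (Or.inr (mem_flatten_erase h))
  · rcases List.mem_append.1 hC with hC | hC
    · obtain ⟨x, -, hC⟩ := List.mem_flatMap.1 hC
      exact phX_vars hC hy
    · rcases cutH_vars hC hy with h | h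
      · exact vars_ZZ h
      · exact Or.inr h

theorem rgs_flatten_mono {A : Fm} {l J : ℕ} (h : l ≤ J) {y : Nm}
    (hy : y ∈ (rgs A l).flatten) : y ∈ (rgs A J).flatten := by
  unfold rgs at hy ⊢
  rw [mem_regs] at hy ⊢
  obtain ⟨j, hj, k, hk, e⟩ := hy
  exact ⟨j, by omega, k, hk, e⟩

theorem phP_vars {f : Bool} {A C : Fm} {J : ℕ} {Gs : List Fm} {y : Nm}
    (hC : C ∈ phP f A Gs J) (hy : y ∈ C.vars) : y = pz ∨ y = [] ∨ y ∈ (rgs A J).flatten := by
  unfold phP at hC
  obtain ⟨l, hl, hC⟩ := List.mem_flatMap.1 hC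
  rw [List.mem_range] at hl
  rcases phS_vars hC hy with h | h | h
  · exact Or.inl h
  · exact Or.inr (Or.inl h)
  · exact Or.inr (Or.inr (rgs_flatten_mono (by omega) h))

section

variable {α : Type} [Enc α]

@[fun_prop]
theorem Poly.eraseIdx {β : Type} [Enc β] {l : α → List β} {i : α → ℕ} (hl : Poly l)
    (hi : Poly i) : Poly (fun a => (l a).eraseIdx (i a)) := by
  have : Poly (fun a => (l a).take (i a) ++ (l a).drop (i a + 1)) := by fun_prop
  refine (show (fun a => (l a).eraseIdx (i a)) = _ from ?_) ▸ this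
  funext a
  exact List.eraseIdx_eq_take_drop_succ _ _

@[fun_prop]
theorem Poly.phX {f : α → Bool} {R : α → List (List Nm)} {A : α → Fm} {Hs : α → List Fm}
    {x : α → Nm} (hf : Poly f) (hR : Poly R) (hA : Poly A) (hH : Poly Hs) (hx : Poly x) :
    Poly (fun a => phX (f a) (R a) (A a) (Hs a) (x a)) := by
  unfold PS.phX
  fun_prop

@[fun_prop]
theorem Poly.phS {f : α → Bool} {A D : α → Fm} {l : α → ℕ} {Hs : α → List Fm}
    (hf : Poly f) (hA : Poly A) (hl : Poly l) (hD : Poly D) (hH : Poly Hs) :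
    Poly (fun a => phS (f a) (A a) (l a) (D a) (Hs a)) := by
  unfold PS.phS
  fun_prop

@[fun_prop]
theorem Poly.phP {f : α → Bool} {A : α → Fm} {Gs : α → List Fm} {J : α → ℕ}
    (hf : Poly f) (hA : Poly A) (hG : Poly Gs) (hJ : Poly J) :
    Poly (fun a => phP (f a) (A a) (Gs a) (J a)) := by
  unfold PS.phP
  fun_prop

end

end Pool.Agent.H.MP_0447ec_lc.PS
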