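import Pool.Agent.H.MP_0447ec_lc.OH.Asm
import Pool.Agent.H.MP_0447ec_lc.OH.Oh
import Pool.Agent.H.MP_0447ec_lc.PS.FromTM

/-!
# The theorem on formulas with nonconstant hypotheses
-/

namespace Pool.Agent.H.MP_0447ec_lc.PS

open Fm Pool.Agent.H.MP_0447ec_lc.PT

theorem top_log_pow {s c : ℕ} (hs : 0 < s) : c * Nat.log 2 s ≤ Nat.log 2 (s ^ c) := by
  have h1 : 2 ^ Nat.log 2 s ≤ s := Nat.pow_log_le_self 2 (by omega)
  calc c * Nat.log 2 s = Nat.log 2 (2 ^ (c * Nat.log 2 s)) := (Nat.log_pow (by norm_num) _).symm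
    _ ≤ Nat.log 2 (s ^ c) := by
        refine Nat.log_mono_right ?_
        rw [Nat.mul_comm, pow_mul]
        exact Nat.pow_le_pow_left h1 c

/-- The interface for blocks. -/
theorem nonconst_main {F : List Rule} (hF : IsFrege F) (c : ℕ) :
    ∃ f : (List Fm × Fm) × ℕ × List Fm → List Fm, Poly f ∧
      ∀ (Hs : List Fm) (B : Fm) (b : ℕ) (π : List Fm), Blocks Hs →
        b ≤ c * Hs.length * Nat.log 2 (sz π) → NarrowProof F (imps Hs B) b π →
        PermProof F (imps Hs B) (f ((Hs, B), b, π)) := by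
  obtain ⟨f, hf, hf'⟩ := groups_main hF
  have h1 : Poly (fun x : (List Fm × Fm) × ℕ × List Fm => sz x.2.2 ^ c) :=
    Poly.powC (Poly.szOf (by fun_prop)) c
  refine ⟨fun x => f (x.2.2, sz x.2.2 ^ c), by fun_prop, ?_⟩
  intro Hs B b π hH hb hπ
  refine hf' (imps Hs B) [] Hs B [] Hs B b _ π rfl (hH.grp false) rfl (hH.grp true) hπ
    (Or.inl ?_)
  rw [min_self]
  have h2 := top_log_pow (s := sz π) (c := c) (sz_pos π)
  calc b ≤ c * Hs.length * Nat.log 2 (sz π) := hb
    _ = Hs.length * (c * Nat.log 2 (sz π)) := by ring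
    _ ≤ Hs.length * Nat.log 2 (sz π ^ c) := Nat.mul_le_mul_left _ h2

/-- The interface for one-hot blocks. -/
theorem oneHot {F : List Rule} (hF : IsFrege F) (c : ℕ) :
    ∃ f : (List (List Nm) × Fm) × ℕ × List Fm → List Fm, Poly f ∧
      ∀ (bs : List (List Nm)) (B : Fm) (b : ℕ) (π : List Fm), bs.flatten.Nodup →
        (∀ x ∈ bs, 2 ≤ x.length) → NarrowProof F (ohs bs B) b π →
        b ≤ c * bs.length * Nat.log 2 (sz π) →
        PermProof F (ohs bs B) (f ((bs, B), b, π)) := by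
  obtain ⟨f, hf, hf'⟩ := groups_main hF
  have h1 : Poly (fun x : (List (List Nm) × Fm) × ℕ × List Fm => sz x.2.2 ^ c) :=
    Poly.powC (Poly.szOf (by fun_prop)) c
  refine ⟨fun x => f (x.2.2, sz x.2.2 ^ c), by fun_prop, ?_⟩
  intro bs B b π hn hbs hπ hb
  have hH := blocks_oh hn hbs
  rw [ohs_eq] at hπ ⊢
  refine hf' (imps (bs.map oh) B) [] (bs.map oh) B [] (bs.map oh) B b _ π rfl (hH.grp false) rfl
    (hH.grp true) hπ (Or.inl ?_)
  rw [min_self, List.length_map]
  have h2 := top_log_pow (s := sz π) (c := c) (sz_pos π)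
  calc b ≤ c * bs.length * Nat.log 2 (sz π) := hb
    _ = bs.length * (c * Nat.log 2 (sz π)) := by ring
    _ ≤ bs.length * Nat.log 2 (sz π ^ c) := Nat.mul_le_mul_left _ h2

/-- The interface for two families of hypotheses. -/
theorem groups_c {F : List Rule} (hF : IsFrege F) (c : ℕ) :
    ∃ f : List Fm → List Fm, Poly f ∧
      ∀ (A : Fm) (pre Ps : List Fm) (B : Fm) (pre' Ns : List Fm) (B' : Fm) (b : ℕ)
        (π : List Fm), A = imps pre (imps Ps B) → Grp false Ps → A = imps pre' (imps Ns B') →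
        Grp true Ns → NarrowProof F A b π →
        b ≤ c * min Ps.length Ns.length * Nat.log 2 (sz π) → PermProof F A (f π) := by
  obtain ⟨f, hf, hf'⟩ := groups_main hF
  have h1 : Poly (fun x : List Fm => sz x ^ c) := Poly.powC (Poly.szOf (by fun_prop)) c
  refine ⟨fun x => f (x, sz x ^ c), by fun_prop, ?_⟩
  intro A pre Ps B pre' Ns B' b π e1 g1 e2 g2 hπ hb
  refine hf' A pre Ps B pre' Ns B' b _ π e1 g1 e2 g2 hπ (Or.inl ?_)
  have h2 := top_log_pow (s := sz π) (c := c) (sz_pos π)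
  calc b ≤ c * min Ps.length Ns.length * Nat.log 2 (sz π) := hb
    _ = min Ps.length Ns.length * (c * Nat.log 2 (sz π)) := by ring
    _ ≤ min Ps.length Ns.length * Nat.log 2 (sz π ^ c) := Nat.mul_le_mul_left _ h2

end Pool.Agent.H.MP_0447ec_lc.PS
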